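import Mathlib

/-!
# Numerical lemmas for the upper half
-/

set_option autoImplicit false

namespace Pool.Agent.H46.SW

open Finset Filter

/-- the sizes of the deviations -/
noncomputable def yl (δ : ℝ) (l : ℕ) : ℝ := (1 + δ / 3) * √(2 * Real.log l)

lemma yl_sq (δ : ℝ) (l : ℕ) (hl : 1 ≤ l) : yl δ l ^ 2 = (1 + δ / 3) ^ 2 * (2 * Real.log l) := by
  unfold yl
  rw [mul_pow, Real.sq_sqrt]
  have : (1 : ℝ) ≤ l := by exact_mod_cast hl
  have := Real.log_nonneg this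
  linarith

lemma tail_sum (δ ε : ℝ) (hδ : 0 < δ) (hε : 0 < ε) : ∃ l₀ : ℕ, ∀ T : Finset ℕ, (∀ l ∈ T, l₀ ≤ l) →
    ∑ l ∈ T, (l : ℝ) ^ (-(1 + δ / 3)) ≤ ε := by
  have h1 : Summable (fun l : ℕ => (l : ℝ) ^ (-(1 + δ / 3))) := Real.summable_nat_rpow.2 (by linarith)
  obtain ⟨S, hS⟩ := summable_iff_vanishing_norm.1 h1 ε hε
  refine ⟨S.sup id + 1, ?_⟩
  intro T hT
  have h2 : Disjoint T S := by
    rw [disjoint_left]
    intro l h3 h4
    have h5 : id l ≤ S.sup id := le_sup h4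
    have h6 := hT l h3
    simp only [id] at h5
    omega
  have h3 := hS T h2
  rw [Real.norm_eq_abs] at h3
  exact ((le_abs_self _).trans h3.le)

lemma ev_nums (η y₀ δ₀ δ : ℝ) (hη : 0 < η) (hδ₀ : 0 < δ₀) (hδ : 0 < δ) (hδ1 : δ ≤ 1) : ∃ l₀ : ℕ, ∀ l : ℕ, l₀ ≤ l →
    y₀ ≤ yl δ l ∧ yl δ l ≤ δ₀ * √(Real.exp (η * (l - 1)) / 2) := by
  have h1 : Tendsto (fun l : ℕ => Real.log (l : ℝ)) atTop atTop := Real.tendsto_log_atTop.comp tendsto_natCast_atTop_atTop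
  have h2 := h1.eventually_ge_atTop (y₀ ^ 2)
  -- log l ≤ l ≤ small * exp
  have h3 : Tendsto (fun l : ℝ => l ^ (1 : ℝ) / Real.exp (η * l)) atTop (nhds 0) := by
    have := tendsto_rpow_mul_exp_neg_mul_atTop_nhds_zero 1 η hη
    refine this.congr fun l => ?_
    rw [div_eq_mul_inv, ← Real.exp_neg, neg_mul]
  have h4 := (h3.comp tendsto_natCast_atTop_atTop).eventually_lt_const
    (show (0 : ℝ) < δ₀ ^ 2 * Real.exp (-η) / 8 by positivity)
  obtain ⟨l₀, h5⟩ := eventually_atTop.1 (h2.and h4)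
  refine ⟨l₀ + 1, ?_⟩
  intro l hl
  obtain ⟨h6, h7⟩ := h5 l (by omega)
  have hl1 : (1 : ℝ) ≤ l := by exact_mod_cast (show 1 ≤ l by omega)
  have hlog : 0 ≤ Real.log l := Real.log_nonneg hl1
  constructor
  · unfold yl
    have h8 : y₀ ≤ √(2 * Real.log l) := Real.le_sqrt_of_sq_le (by linarith)
    have h9 : 0 ≤ √(2 * Real.log l) := Real.sqrt_nonneg _
    nlinarith
  · have h8 : (yl δ l) ^ 2 ≤ δ₀ ^ 2 * (Real.exp (η * (l - 1)) / 2) := by
      rw [yl_sq δ l (by omega)]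
      have h9 : (1 + δ / 3) ^ 2 ≤ 2 := by nlinarith
      have h10 : Real.log l ≤ l := by
        have := Real.log_le_sub_one_of_pos (show (0 : ℝ) < l by linarith)
        linarith
      have h11 : (l : ℝ) ≤ δ₀ ^ 2 * Real.exp (-η) / 8 * Real.exp (η * l) := by
        simp only [Function.comp_apply, Real.rpow_one] at h7
        rw [div_lt_iff₀ (Real.exp_pos _)] at h7
        exact h7.le
      have h12 : Real.exp (-η) * Real.exp (η * l) = Real.exp (η * (l - 1)) := by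
        rw [← Real.exp_add]
        congr 1
        ring
      calc (1 + δ / 3) ^ 2 * (2 * Real.log l) ≤ 2 * (2 * l) := by
            apply mul_le_mul h9 (by linarith) (by positivity) (by norm_num)
        _ ≤ 4 * (δ₀ ^ 2 * Real.exp (-η) / 8 * Real.exp (η * l)) := by linarith
        _ = δ₀ ^ 2 * ((Real.exp (-η) * Real.exp (η * l)) / 2) := by ring
        _ = _ := by rw [h12]
    have h9 : √(yl δ l ^ 2) ≤ √(δ₀ ^ 2 * (Real.exp (η * (l - 1)) / 2)) := Real.sqrt_le_sqrt h8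
    rw [Real.sqrt_mul (sq_nonneg _), Real.sqrt_sq hδ₀.le, Real.sqrt_sq] at h9
    · exact h9
    · unfold yl
      positivity

lemma ev_loglog (B : ℝ) : ∃ N₀ : ℕ, 3 ≤ N₀ ∧ ∀ x : ℝ, (N₀ : ℝ) ≤ x → B ≤ Real.log (Real.log x) ∧ B ≤ Real.log x := by
  have h1 : Tendsto (fun x : ℝ => Real.log (Real.log x)) atTop atTop := Real.tendsto_log_atTop.comp Real.tendsto_log_atTop
  have h2 := h1.eventually_ge_atTop B
  have h3 := Real.tendsto_log_atTop.eventually_ge_atTop B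
  obtain ⟨x₀, h4⟩ := eventually_atTop.1 (h2.and h3)
  obtain ⟨N, hN⟩ := exists_nat_ge x₀
  refine ⟨N + 3, by omega, ?_⟩
  intro x hx
  apply h4
  push_cast at hx
  linarith

/-- the comparison of the two bounds -/
lemma up_final (δ V W l' ll : ℝ) (l : ℕ) (hδ : 0 < δ) (hδ1 : δ ≤ 1) (hV : 0 ≤ V) (hW : W ≤ (1 + δ / 6) * V) (hW0 : 0 ≤ W) (hl : 1 ≤ l)
    (hl' : l' = Real.log l) (hll : l' ≤ (1 + δ / 6) * ll) (hll0 : 0 ≤ ll) : yl δ l * √W ≤ (1 + δ) * √(2 * V * ll) := by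
  have hl1 : (1 : ℝ) ≤ l := by exact_mod_cast hl
  have h0 : 0 ≤ l' := by rw [hl']; exact Real.log_nonneg hl1
  have h1 : yl δ l * √W = (1 + δ / 3) * √(2 * l' * W) := by
    unfold yl
    rw [hl', mul_assoc, ← Real.sqrt_mul (by rw [← hl']; linarith)]
  have h2 : 2 * l' * W ≤ (1 + δ / 6) ^ 2 * (2 * V * ll) := by
    calc 2 * l' * W ≤ 2 * ((1 + δ / 6) * ll) * ((1 + δ / 6) * V) := by
          apply mul_le_mul (by linarith) hW hW0 (by positivity)
      _ = _ := by ring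
  have h3 : √(2 * l' * W) ≤ (1 + δ / 6) * √(2 * V * ll) := by
    refine (Real.sqrt_le_sqrt h2).trans ?_
    rw [Real.sqrt_mul (sq_nonneg _), Real.sqrt_sq (by linarith)]
  rw [h1]
  have h4 : 0 ≤ √(2 * V * ll) := Real.sqrt_nonneg _
  calc (1 + δ / 3) * √(2 * l' * W) ≤ (1 + δ / 3) * ((1 + δ / 6) * √(2 * V * ll)) := mul_le_mul_of_nonneg_left h3 (by linarith)
    _ = ((1 + δ / 3) * (1 + δ / 6)) * √(2 * V * ll) := by ring
    _ ≤ _ := by
        apply mul_le_mul_of_nonneg_right _ h4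
        nlinarith

end Pool.Agent.H46.SW
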