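import Pool.Agent.H46.SW.LoA

/-!
# The lower half: one level
-/

set_option autoImplicit false

namespace Pool.Agent.H46.SW

open Finset Pool.Agent.Q255.EB
open Q282LT (zbox zprop avg ZPer mem_zbox card_zbox)
open Q285MD (wm tm vr Dat G avg_mono avg_add avg_smul avg_const avg_sum avg_dvd avg_abs blk inn rem Qb F)
open Pool.Agent.Q277.EB (gi gi_nonneg gi_le dat dev_eq)
open Q69DL (rst rst_dat rst_nonneg)

variable {d s : ℕ} {q : ℕ → ℕ} {x : ℕ → (Fin d → ℤ) → ℝ}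

/-- one level -/
lemma level_concl {K : ℕ} (hF : Fam d (K + s) q x) (I : Fin s → Set ℝ) (K₁ Ks Kl B : ℕ) (h1 : K₁ ≤ Ks) (h2 : Ks ≤ Kl) (h3 : Kl ≤ K)
    (hB : 0 < B) (hBK : B ≤ Kl) (c θ γ Λ l Cr σ : ℝ) (hc : 0 < c) (hγ : 0 < γ) (hγ1 : γ ≤ 1 / 32) (hθ : θ = γ ^ 2 / 8)
    (hV : c * Kl ≤ Vm d s q x Kl) (hvb : (1 - θ / 4) * Vm d s q x Kl ≤ vb q x I Ks) (hR : 576 * s * K₁ ≤ c * θ ^ 2 * Kl)
    (hB2 : 2304 * (s : ℝ) ^ 2 ≤ c * θ ^ 2 * B) (hCr0 : 0 ≤ Cr) (hCr : Cr ≤ 4 * c * θ * B) (hl : 0 < l)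
    (hΛ : 2 * (1 - 4 * γ) * ((1 - γ) * l) ≤ Λ) (hll0 : 0 ≤ Real.log (Real.log Ks)) (hll : Real.log (Real.log Ks) ≤ (1 + γ) * l)
    (hσ : |σ| = 1) (ν : Fin d → ℤ)
    (E0 : √(Λ * vr d s K q (gi x I) (inn s K B ∩ Ico K₁ Ks)) / (1 + γ) ≤ σ * ∑ k ∈ inn s K B ∩ Ico K₁ Ks, G s q (gi x I) k ν)
    (E1 : |count x I K₁ ν - cmean q x I K₁| ≤ 4 * √l * √(Vm d s q x K₁))
    (E2 : |∑ k ∈ rem s Kl B, G s q (rst (Ico K₁ Ks) (gi x I)) k ν| ≤ √l * √(Cr * Kl / B)) :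
    (1 - 32 * γ) * √(2 * Vm d s q x Ks * Real.log (Real.log Ks)) ≤ σ * (count x I Ks ν - cmean q x I Ks) := by
  classical
  have hD := dat (K := K) hF I
  have hBr : (0 : ℝ) < B := by exact_mod_cast hB
  have hs : (0 : ℝ) ≤ s := Nat.cast_nonneg _
  have hKl : (B : ℝ) ≤ Kl := by exact_mod_cast hBK
  have hKl0 : (0 : ℝ) < Kl := by linarith
  obtain ⟨V, hVe⟩ : ∃ V : ℝ, V = Vm d s q x Kl := ⟨_, rfl⟩
  rw [← hVe] at hV hvb
  have hV0 : 0 < V := lt_of_lt_of_le (by positivity) hV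
  have hγ2 : 0 < γ ^ 2 := by positivity
  have hθ0 : 0 < θ := by rw [hθ]; positivity
  have hθ1 : θ ≤ 1 / 8 := by rw [hθ]; nlinarith
  have hvr := level_var hF I K₁ Ks Kl B h1 h2 h3 hB hBK c θ V hc hθ0 hθ1 hV hvb hR hB2
  -- the decomposition
  have hsplit1 : range Ks = range K₁ ∪ Ico K₁ Ks := by
    ext k
    rw [mem_union, mem_range, mem_range, mem_Ico]
    omega
  have hdis1 : Disjoint (range K₁) (Ico K₁ Ks) := by
    rw [disjoint_left]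
    intro k h4 h5
    rw [mem_range] at h4
    rw [mem_Ico] at h5
    omega
  have hsplit2 : Ico K₁ Ks = (inn s K B ∩ Ico K₁ Ks) ∪ (rem s K B ∩ Ico K₁ Ks) := by
    rw [← union_inter_distrib_right, Q285MD.inn_rem]
    symm
    rw [inter_eq_right]
    intro k hk
    rw [mem_Ico] at hk
    rw [mem_range]
    omega
  have hdis2 : Disjoint (inn s K B ∩ Ico K₁ Ks) (rem s K B ∩ Ico K₁ Ks) :=
    Disjoint.mono inter_subset_left inter_subset_left (Q285MD.disj s K B)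
  have hrem : rem s Kl B ∩ Ico K₁ Ks = rem s K B ∩ Ico K₁ Ks := by
    ext k
    rw [mem_inter, mem_inter, rem, rem, mem_filter, mem_filter, mem_range, mem_range, mem_Ico]
    constructor
    · rintro ⟨⟨h4, h5⟩, h6⟩
      exact ⟨⟨by omega, h5⟩, h6⟩
    · rintro ⟨⟨h4, h5⟩, h6⟩
      exact ⟨⟨by omega, h5⟩, h6⟩
  rw [rst_sum (dat_mono hD h3) (Ico K₁ Ks) (rem s Kl B) (filter_subset _ _) ν, hrem] at E2
  have e0 : count x I Ks ν - cmean q x I Ks = (count x I K₁ ν - cmean q x I K₁) +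
      (∑ k ∈ inn s K B ∩ Ico K₁ Ks, G s q (gi x I) k ν + ∑ k ∈ rem s K B ∩ Ico K₁ Ks, G s q (gi x I) k ν) := by
    rw [dev_eq, dev_eq, hsplit1, sum_union hdis1, ← sum_union hdis2, ← hsplit2]
  rw [e0]
  have f1 : -(4 * √l * √(Vm d s q x K₁)) ≤ σ * (count x I K₁ ν - cmean q x I K₁) := by
    have h4 : |σ * (count x I K₁ ν - cmean q x I K₁)| ≤ 4 * √l * √(Vm d s q x K₁) := by
      rw [abs_mul, hσ, one_mul]
      exact E1
    exact (abs_le.1 h4).1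
  have f2 : -(√l * √(Cr * Kl / B)) ≤ σ * ∑ k ∈ rem s K B ∩ Ico K₁ Ks, G s q (gi x I) k ν := by
    have h4 : |σ * ∑ k ∈ rem s K B ∩ Ico K₁ Ks, G s q (gi x I) k ν| ≤ √l * √(Cr * Kl / B) := by
      rw [abs_mul, hσ, one_mul]
      exact E2
    exact (abs_le.1 h4).1
  have hsl : 0 ≤ √l := Real.sqrt_nonneg _
  -- the error terms
  have hVK₁ : Vm d s q x K₁ ≤ θ * V / 4 := by
    have h4 := Vm_le (s := s) hF (K' := K₁) (by omega)
    have h5 : 576 * s * K₁ ≤ θ ^ 2 * V := hR.trans (by nlinarith [sq_nonneg θ])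
    have h6 : θ ^ 2 * V ≤ θ * V := by nlinarith [mul_pos hθ0 hV0]
    have h7 : 0 ≤ θ * V := by positivity
    linarith
  have g1 : √(Vm d s q x K₁) ≤ √(θ * V) / 2 := by
    have h4 : √(Vm d s q x K₁) ≤ √(θ * V / 2 ^ 2) := Real.sqrt_le_sqrt (by linarith)
    rwa [Real.sqrt_div' _ (by positivity), Real.sqrt_sq (by norm_num)] at h4
  have g2 : √(Cr * Kl / B) ≤ 2 * √(θ * V) := by
    have h4 : Cr * Kl / B ≤ 2 ^ 2 * (θ * V) := by
      rw [div_le_iff₀ hBr]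
      calc Cr * Kl ≤ 4 * c * θ * B * Kl := mul_le_mul_of_nonneg_right hCr hKl0.le
        _ = 4 * θ * B * (c * Kl) := by ring
        _ ≤ 4 * θ * B * V := mul_le_mul_of_nonneg_left hV (by positivity)
        _ = _ := by ring
    have h5 := Real.sqrt_le_sqrt h4
    rwa [Real.sqrt_mul (by norm_num), Real.sqrt_sq (by norm_num)] at h5
  have g3 : 4 * √l * √(Vm d s q x K₁) + √l * √(Cr * Kl / B) ≤ 4 * √l * √(θ * V) := by
    have h4 := mul_le_mul_of_nonneg_left g1 hsl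
    have h5 := mul_le_mul_of_nonneg_left g2 hsl
    nlinarith
  have hΛ0 : 0 ≤ Λ := by
    refine le_trans ?_ hΛ
    have : 0 ≤ (1 - γ) * l := mul_nonneg (by linarith) hl.le
    have : 0 ≤ (1 - 4 * γ) := by linarith
    positivity
  have g4 : √(Λ * (V - θ * V)) / (1 + γ) ≤ σ * ∑ k ∈ inn s K B ∩ Ico K₁ Ks, G s q (gi x I) k ν := by
    refine le_trans ?_ E0
    apply div_le_div_of_nonneg_right _ (by linarith)
    apply Real.sqrt_le_sqrt
    apply mul_le_mul_of_nonneg_left _ hΛ0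
    linarith
  have g5 : √(Λ * (V - θ * V)) / (1 + γ) - 4 * √l * √(θ * V) ≤
      σ * ((count x I K₁ ν - cmean q x I K₁) +
      (∑ k ∈ inn s K B ∩ Ico K₁ Ks, G s q (gi x I) k ν + ∑ k ∈ rem s K B ∩ Ico K₁ Ks, G s q (gi x I) k ν)) := by
    rw [mul_add, mul_add]
    linarith
  have g6 := Pool.Agent.K4H16.CG.low_final γ V (θ * V) l Λ (Real.log (Real.log Ks)) _ hγ hγ1 hV0 (by positivity)
    (by rw [hθ]) hl hΛ hll g5
  refine le_trans ?_ g6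
  apply mul_le_mul_of_nonneg_left _ (by linarith)
  apply Real.sqrt_le_sqrt
  apply mul_le_mul_of_nonneg_right _ hll0
  have := Vm_mono (s := s) hF h2 h3
  rw [← hVe] at this
  linarith

end Pool.Agent.H46.SW
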