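import Pool.Agent.H46.SW.UpW
import Pool.Graph.R_pool_sql_team_seeded_c8625f6e.K4H16.CG.IL9

/-!
# For most members some of several sums over disjoint blocks of windows is large
-/

set_option autoImplicit false

namespace Pool.Agent.H46.SW

open Finset Pool.Agent.Q255.EB
open Q282LT (zbox zprop avg ZPer mem_zbox card_zbox)
open Q285MD (wm tm vr Dat G avg_mono avg_add avg_smul avg_const avg_sum avg_dvd avg_abs blk inn rem Qb F)
open Pool.Agent.Q277.EB (gi gi_nonneg gi_le dat dev_eq)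
open Pool.Agent.K4H16.CG (second_moment equi_box Equi SS VV)

variable {d s : ℕ} {q : ℕ → ℕ} {x : ℕ → (Fin d → ℤ) → ℝ}

/-- the representatives of the residue classes -/
def rp (Q : ℕ) (b : Fin d → ZMod Q) (i : Fin d) : ℤ := ((b i).val : ℤ)

lemma avg_zmod (Q : ℕ) [NeZero Q] (f : (Fin d → ℤ) → ℝ) :
    Pool.Agent.K4H16.CG.avg (fun b : Fin d → ZMod Q => f (rp Q b)) = avg d Q f := by
  unfold Pool.Agent.K4H16.CG.avg Q282LT.avg
  have h1 : (Fintype.card (Fin d → ZMod Q) : ℝ) = (Q : ℝ) ^ d := by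
    rw [Fintype.card_fun, ZMod.card, Fintype.card_fin]
    push_cast
    rfl
  rw [h1]
  congr 1
  refine sum_nbij' (fun b i => (b i).val) (fun n i => (n i : ZMod Q)) ?_ ?_ ?_ ?_ ?_
  · intro b _
    rw [Fintype.mem_piFinset]
    intro i
    rw [mem_range]
    exact ZMod.val_lt _
  · intro n _
    exact mem_univ _
  · intro b _
    funext i
    exact ZMod.natCast_zmod_val _
  · intro n hn
    rw [Fintype.mem_piFinset] at hn
    funext i
    have := hn i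
    rw [mem_range] at this
    exact ZMod.val_cast_of_lt this
  · intro b _
    rfl

lemma rp_cast (Q : ℕ) [NeZero Q] {f : (Fin d → ℤ) → ℝ} (hf : ZPer Q f) (ν : Fin d → ℤ) :
    f (rp Q (fun i => (ν i : ZMod Q))) = f ν := by
  apply hf
  intro i
  unfold rp
  rw [← ZMod.intCast_eq_intCast_iff_dvd_sub]
  push_cast
  rw [ZMod.natCast_zmod_val]

lemma nat_two_pow (a : ℕ) : (a : ℝ) ≤ 2 ^ a := by
  exact_mod_cast (Nat.lt_two_pow_self (n := a)).le

lemma card_filter_iff {α : Type} (s : Finset α) (P Q : α → Prop) (iP : DecidablePred P) (iQ : DecidablePred Q) (h : ∀ a, P a ↔ Q a) :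
    (@Finset.filter α P iP s).card = (@Finset.filter α Q iQ s).card := by
  congr 1
  ext a
  rw [mem_filter, mem_filter, h a]

open Classical in
theorem dat_windows (s B : ℕ) (hB : 1 ≤ B) : ∃ A : ℝ, 0 < A ∧ ∀ (d K : ℕ) (q : ℕ → ℕ) (m : ℕ), 1 ≤ m →
    ∀ g : Fin m → ℕ → (Fin d → ℤ) → ℝ, (∀ a, Dat d s K q (g a)) →
    (∀ a b, a ≠ b → ∀ j, (∀ k ∈ blk s K B j, ∀ ν, g a k ν = 0) ∨ (∀ k ∈ blk s K B j, ∀ ν, g b k ν = 0)) →
    ∀ γ Λ : ℝ, 0 < γ → γ ≤ 1 / 4 → 64 ≤ γ ^ 2 * Λ → (∀ a, 4096 * B ^ 2 * Λ ≤ γ ^ 4 * vr d s K q (g a) (inn s K B)) →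
    ∀ Y : ℕ, 2 ≤ Y → (∀ i < K + s, q i ≤ Y) → K ≤ Y → ∀ (μ : Fin d → ℤ) (L : Fin d → ℕ),
      (∀ i, (d + 1) * (Y : ℝ) ^ (A * Λ) ≤ L i) → ∀ σ : ℝ, (σ = 1 ∨ σ = -1) →
      zprop μ L (fun ν => ∀ a, σ * ∑ k ∈ inn s K B, G s q (g a) k ν < √(Λ * vr d s K q (g a) (inn s K B)) / (1 + γ)) ≤
        8 * Real.exp ((1 + 3 * γ) * Λ / 2) / m + 102 * Real.exp (-(Λ * γ ^ 2 / 8)) := by
  refine ⟨(8 + 4 * B) * 4097 + 3, by positivity, ?_⟩
  intro d K q m hm g hg hdisj γ Λ hγ0 hγ hΛ64 hΛV Y hY2 hY hKY μ L hL σ hσ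
  have hB0 : 0 < B := by omega
  have hBr : (0 : ℝ) < B := by exact_mod_cast hB0
  have hγ2 : γ ^ 2 ≤ 1 / 16 := by nlinarith
  have hγ20 : 0 < γ ^ 2 := by positivity
  have hγ40 : 0 < γ ^ 4 := by positivity
  have hΛ0 : 0 < Λ := by
    by_contra hcon
    push Not at hcon
    nlinarith
  have hΛ1000 : 1024 ≤ Λ := by nlinarith
  have hσ1 : |σ| = 1 := by rcases hσ with h | h <;> rw [h] <;> norm_num
  have hσ2 : σ ^ 2 = 1 := by rcases hσ with h | h <;> rw [h] <;> norm_num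
  have hYr : (2 : ℝ) ≤ Y := by exact_mod_cast hY2
  have hY1 : (1 : ℝ) ≤ Y := by linarith
  have hY0 : (0 : ℝ) < Y := by linarith
  have hm0 : (0 : ℝ) < m := by exact_mod_cast (show 0 < m by omega)
  obtain ⟨Kt, hKt⟩ : ∃ Kt : ℕ, Kt = ⌈4096 * Λ⌉₊ := ⟨_, rfl⟩
  have hKt1 : 4096 * Λ ≤ Kt := by rw [hKt]; exact Nat.le_ceil _
  have hKt2 : (Kt : ℝ) ≤ 4097 * Λ := by
    rw [hKt]
    have h1 := Nat.ceil_lt_add_one (show 0 ≤ 4096 * Λ by positivity)
    linarith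
  have hKt8 : 8 ≤ Kt := by
    have : (8 : ℝ) ≤ Kt := by linarith
    exact_mod_cast this
  -- the sides
  have hpos : (0 : ℝ) < (d + 1) * (Y : ℝ) ^ (((8 + 4 * (B : ℝ)) * 4097 + 3) * Λ) := by positivity
  obtain ⟨S, hS⟩ : ∃ S : ℕ, S = ⌈(d + 1) * (Y : ℝ) ^ (((8 + 4 * (B : ℝ)) * 4097 + 3) * Λ)⌉₊ := ⟨_, rfl⟩
  have hS1 : (d + 1) * (Y : ℝ) ^ (((8 + 4 * (B : ℝ)) * 4097 + 3) * Λ) ≤ S := by rw [hS]; exact Nat.le_ceil _
  have hSp : 0 < S := by rw [hS]; exact Nat.ceil_pos.2 hpos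
  have hSr : (0 : ℝ) < S := by exact_mod_cast hSp
  have hSN : ∀ i, S ≤ L i := fun i => by rw [hS]; exact Nat.ceil_le.2 (hL i)
  have hLpos : ∀ i, 0 < L i := fun i => lt_of_lt_of_le hSp (hSN i)
  have hP : 0 < ∏ i, (L i : ℝ) := prod_pos fun i _ => by exact_mod_cast hLpos i
  -- the moduli of the blocks
  obtain ⟨NB, hNB⟩ : ∃ NB : ℕ, NB = K / B + 1 := ⟨_, rfl⟩
  have hQ1 : ∀ j : ℕ, 1 ≤ Qb s K B q j := fun j => (hg ⟨0, by omega⟩).Qb_pos B j
  have hne : ∀ j : Fin NB, NeZero (Qb s K B q j) := fun j => ⟨by have := hQ1 j; omega⟩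
  have hcop : Pairwise (Function.onFun Nat.Coprime (fun j : Fin NB => Qb s K B q j)) := by
    intro i j hij
    exact (hg ⟨0, by omega⟩).Qb_cop B (fun h => hij (Fin.ext h))
  have hQY : ∀ j : Fin NB, Qb s K B q j ≤ Y ^ B := fun j => Q69DL.Qb_le (by omega) hY hB0 j
  have heq := equi_box (fun j : Fin NB => Qb s K B q j) hcop (Y ^ B) (Nat.one_le_pow _ _ (by omega)) hQY (4 * Kt) S hSp d
    (fun i => μ i - 1) L hSN
  have hbox : Fintype.piFinset (fun i => Ioc (μ i - 1) (μ i - 1 + (L i : ℤ))) = zbox μ L := by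
    ext ν
    rw [mem_zbox, Fintype.mem_piFinset]
    apply forall_congr'
    intro i
    rw [mem_Ioc]
    omega
  rw [hbox] at heq
  have hJ : (1 + (Fintype.card (Fin NB) : ℝ)) ^ (4 * Kt) * (d * (2 * ((Y ^ B : ℕ) : ℝ) ^ (4 * Kt) / S)) ≤ 1 / 4 := by
    have h1 : 1 + (Fintype.card (Fin NB) : ℝ) ≤ (Y : ℝ) ^ 2 := by
      rw [Fintype.card_fin, hNB]
      have h2 : K / B ≤ K := Nat.div_le_self K B
      have h3 : ((K / B : ℕ) : ℝ) ≤ Y := by exact_mod_cast h2.trans hKY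
      push_cast
      push_cast at h3
      nlinarith
    have h2 : (1 + (Fintype.card (Fin NB) : ℝ)) ^ (4 * Kt) * (d * (2 * ((Y ^ B : ℕ) : ℝ) ^ (4 * Kt) / S)) ≤
        ((Y : ℝ) ^ 2) ^ (4 * Kt) * (d * (2 * ((Y ^ B : ℕ) : ℝ) ^ (4 * Kt) / S)) := by gcongr
    refine h2.trans ?_
    have h3 : ((Y : ℝ) ^ 2) ^ (4 * Kt) * (d * (2 * ((Y ^ B : ℕ) : ℝ) ^ (4 * Kt) / S)) = 1 / 4 * (8 * d * (Y : ℝ) ^ ((8 + 4 * B) * Kt)) / S := by
      push_cast
      rw [← pow_mul, ← pow_mul]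
      have : (Y : ℝ) ^ ((8 + 4 * B) * Kt) = (Y : ℝ) ^ (2 * (4 * Kt)) * (Y : ℝ) ^ (B * (4 * Kt)) := by
        rw [← pow_add]
        congr 1
        ring
      rw [this]
      ring
    rw [h3, div_le_iff₀ hSr]
    have h5 : (Y : ℝ) ^ ((8 + 4 * B) * Kt) ≤ (Y : ℝ) ^ ((8 + 4 * (B : ℝ)) * 4097 * Λ) := by
      rw [← Real.rpow_natCast]
      apply Real.rpow_le_rpow_of_exponent_le hY1
      push_cast
      calc (8 + 4 * (B : ℝ)) * Kt ≤ (8 + 4 * (B : ℝ)) * (4097 * Λ) := mul_le_mul_of_nonneg_left hKt2 (by positivity)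
        _ = _ := by ring
    have h4 : (8 : ℝ) ≤ (Y : ℝ) ^ (3 * Λ) := by
      calc (8 : ℝ) = 2 ^ (3 : ℕ) := by norm_num
        _ ≤ (Y : ℝ) ^ (3 : ℕ) := pow_le_pow_left₀ (by norm_num) hYr 3
        _ = (Y : ℝ) ^ (3 : ℝ) := by
            rw [← Real.rpow_natCast]
            norm_num
        _ ≤ _ := Real.rpow_le_rpow_of_exponent_le hY1 (by linarith)
    have h6 : 8 * d * (Y : ℝ) ^ ((8 + 4 * B) * Kt) ≤ S := by
      calc 8 * d * (Y : ℝ) ^ ((8 + 4 * B) * Kt) = d * (8 * (Y : ℝ) ^ ((8 + 4 * B) * Kt)) := by ring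
        _ ≤ (d + 1) * ((Y : ℝ) ^ (3 * Λ) * (Y : ℝ) ^ ((8 + 4 * (B : ℝ)) * 4097 * Λ)) := by
            apply mul_le_mul (by linarith) (mul_le_mul h4 h5 (by positivity) (by positivity)) (by positivity) (by positivity)
        _ = (d + 1) * (Y : ℝ) ^ (((8 + 4 * (B : ℝ)) * 4097 + 3) * Λ) := by
            rw [← Real.rpow_add hY0]
            congr 2
            ring
        _ ≤ S := hS1
    linarith
  -- the functions
  obtain ⟨f, hf⟩ : ∃ f : Fin m → ∀ j : Fin NB, (Fin d → ZMod (Qb s K B q j)) → ℝ,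
    f = fun a (j : Fin NB) b => σ * (F s K B (g a) j (rp (Qb s K B q j) b) - avg d (Qb s K B q j) (F s K B (g a) j)) / 2 := ⟨_, rfl⟩
  have hf1 : ∀ a j b, |f a j b| ≤ 1 := by
    intro a j b
    rw [hf]
    simp only
    rw [abs_div, abs_mul, hσ1, one_mul, abs_of_pos (by norm_num : (0 : ℝ) < 2), div_le_one (by norm_num)]
    have h1 := (hg a).F_bd hB0 j (rp _ b)
    have h2 := avg_abs (hQ1 j) ((hg a).F_bd hB0 j)
    exact (abs_sub _ _).trans (by linarith)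
  have hf0 : ∀ a j, Pool.Agent.K4H16.CG.avg (f a j) = 0 := by
    intro a j
    haveI := hne j
    rw [hf]
    have h1 := avg_zmod (d := d) (Qb s K B q j) (fun ν => σ / 2 * (F s K B (g a) j ν + - avg d (Qb s K B q j) (F s K B (g a) j)))
    have h2 : (fun b : Fin d → ZMod (Qb s K B q j) => σ * (F s K B (g a) j (rp _ b) - avg d (Qb s K B q j) (F s K B (g a) j)) / 2) =
        fun b => σ / 2 * (F s K B (g a) j (rp _ b) + - avg d (Qb s K B q j) (F s K B (g a) j)) := by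
      funext b
      ring
    simp only
    rw [h2, h1, avg_smul, avg_add, avg_const (hQ1 j)]
    ring
  have hVV : ∀ a, VV (f a) = vr d s K q (g a) (inn s K B) / (4 * (B : ℝ) ^ 2) := by
    intro a
    have h0 := (hg a).var_blk hB0
    unfold VV
    have h1 : ∀ j : Fin NB, Pool.Agent.K4H16.CG.avg (fun b => f a j b ^ 2) =
        (1 / 4) * (avg d (Qb s K B q j) (fun ν => F s K B (g a) j ν ^ 2) - avg d (Qb s K B q j) (F s K B (g a) j) ^ 2) := by
      intro j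
      haveI := hne j
      rw [hf]
      have h2 : (fun b : Fin d → ZMod (Qb s K B q j) => (σ * (F s K B (g a) j (rp _ b) - avg d (Qb s K B q j) (F s K B (g a) j)) / 2) ^ 2) =
          fun b => (1 / 4) * (F s K B (g a) j (rp _ b) - avg d (Qb s K B q j) (F s K B (g a) j)) ^ 2 := by
        funext b
        have : (σ * (F s K B (g a) j (rp _ b) - avg d (Qb s K B q j) (F s K B (g a) j)) / 2) ^ 2 =
          σ ^ 2 * ((1 / 4) * (F s K B (g a) j (rp _ b) - avg d (Qb s K B q j) (F s K B (g a) j)) ^ 2) := by ring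
        rw [this, hσ2, one_mul]
      simp only
      rw [h2]
      have h3 := avg_zmod (d := d) (Qb s K B q j) (fun ν => (1 / 4) * (F s K B (g a) j ν - avg d (Qb s K B q j) (F s K B (g a) j)) ^ 2)
      rw [h3, avg_smul, Q285MD.avg_sub_sq (hQ1 j) _ _ rfl]
    rw [sum_congr rfl fun j _ => h1 j, ← mul_sum]
    have h4 : ∑ j : Fin NB, (avg d (Qb s K B q j) (fun ν => F s K B (g a) j ν ^ 2) - avg d (Qb s K B q j) (F s K B (g a) j) ^ 2) =
        ∑ j ∈ range (K / B + 1), (avg d (Qb s K B q j) (fun ν => F s K B (g a) j ν ^ 2) - avg d (Qb s K B q j) (F s K B (g a) j) ^ 2) := by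
      rw [← hNB]
      exact Fin.sum_univ_eq_sum_range (fun j : ℕ => avg d (Qb s K B q j) (fun ν => F s K B (g a) j ν ^ 2) - avg d (Qb s K B q j) (F s K B (g a) j) ^ 2) NB
    rw [h4, h0]
    field_simp
  have hV0 : ∀ a, 0 < VV (f a) := by
    intro a
    rw [hVV]
    have h1 := hΛV a
    have h2 : 0 < vr d s K q (g a) (inn s K B) := by
      by_contra hcon
      push Not at hcon
      have h3 : γ ^ 4 * vr d s K q (g a) (inn s K B) ≤ 0 := mul_nonpos_of_nonneg_of_nonpos hγ40.le hcon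
      have h4 : 0 < 4096 * (B : ℝ) ^ 2 * Λ := by positivity
      linarith
    positivity
  have hSS : ∀ (a : Fin m) (ν : Fin d → ℤ), SS (f a) (fun j i => (ν i : ZMod (Qb s K B q j))) =
      σ * (∑ k ∈ inn s K B, G s q (g a) k ν) / (2 * B) := by
    intro a ν
    unfold SS
    have h1 : ∀ j : Fin NB, f a j (fun i => (ν i : ZMod (Qb s K B q j))) =
        σ / 2 * ∑ k ∈ blk s K B j, G s q (g a) k ν / B := by
      intro j
      haveI := hne j
      rw [hf]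
      simp only
      rw [rp_cast (Qb s K B q j) ((hg a).F_per hB0 j) ν, (hg a).F_sub hB0 j ν]
      ring
    rw [sum_congr rfl fun j _ => h1 j, ← mul_sum]
    have h4 : ∑ j : Fin NB, ∑ k ∈ blk s K B j, G s q (g a) k ν / B = ∑ k ∈ inn s K B, G s q (g a) k ν / B := by
      rw [← Q285MD.sum_blk s K B fun k => G s q (g a) k ν / B, ← hNB]
      exact Fin.sum_univ_eq_sum_range (fun j : ℕ => ∑ k ∈ blk s K B j, G s q (g a) k ν / B) NB
    rw [h4, ← sum_div]
    field_simp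
  have hL' : ∀ a : Fin m, √(Λ / VV (f a)) ^ 2 * VV (f a) = Λ := by
    intro a
    rw [Real.sq_sqrt (div_nonneg hΛ0.le (hV0 a).le), div_mul_cancel₀ _ (hV0 a).ne']
  have hu : ∀ a : Fin m, 64 * √(Λ / VV (f a)) ≤ 2 * γ ^ 2 := by
    intro a
    have h1 : √(Λ / VV (f a)) ≤ γ ^ 2 / 32 := by
      rw [Real.sqrt_le_left (by positivity), div_le_iff₀ (hV0 a), hVV]
      have h2 := hΛV a
      have e : (γ ^ 2 / 32) ^ 2 * (vr d s K q (g a) (inn s K B) / (4 * (B : ℝ) ^ 2)) =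
        γ ^ 4 * vr d s K q (g a) (inn s K B) / (4096 * (B : ℝ) ^ 2) := by
        field_simp
        ring
      rw [e, le_div_iff₀ (by positivity)]
      linarith
    linarith
  have hT : ∀ a : Fin m, √(Λ / VV (f a)) * VV (f a) / (1 + γ) = √(Λ * vr d s K q (g a) (inn s K B)) / (1 + γ) / (2 * B) := by
    intro a
    have h1 : √(Λ / VV (f a)) * VV (f a) = √(Λ * VV (f a)) := by
      have h2 : VV (f a) = √(VV (f a)) * √(VV (f a)) := (Real.mul_self_sqrt (hV0 a).le).symm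
      rw [Real.sqrt_div hΛ0.le, Real.sqrt_mul hΛ0.le]
      have h3 : 0 < √(VV (f a)) := Real.sqrt_pos.2 (hV0 a)
      calc √Λ / √(VV (f a)) * VV (f a) = √Λ / √(VV (f a)) * (√(VV (f a)) * √(VV (f a))) := by rw [← h2]
        _ = √Λ * √(VV (f a)) := by field_simp
    have h4 : √(Λ * VV (f a)) = √(Λ * vr d s K q (g a) (inn s K B)) / (2 * B) := by
      have h5 : Λ * VV (f a) = Λ * vr d s K q (g a) (inn s K B) / (2 * B) ^ 2 := by
        rw [hVV]
        ring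
      rw [h5, Real.sqrt_div' _ (by positivity), Real.sqrt_sq (by positivity)]
    rw [h1, h4]
    ring
  have hdis : ∀ a b : Fin m, a ≠ b → ∀ j : Fin NB, (∀ c, f a j c = 0) ∨ (∀ c, f b j c = 0) := by
    intro a b hab j
    have key : ∀ a : Fin m, (∀ k ∈ blk s K B j, ∀ ν, g a k ν = 0) → ∀ c, f a j c = 0 := by
      intro a h c
      have h1 : F s K B (g a) j = fun _ => 0 := by
        funext ν
        unfold F
        apply sum_eq_zero
        intro k hk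
        rw [h k hk ν, zero_div]
      rw [hf]
      simp only
      rw [h1, avg_const (hQ1 j)]
      norm_num
    rcases hdisj a b hab j with h | h
    · exact Or.inl (key a h)
    · exact Or.inr (key b h)
  have h1 := second_moment (zbox μ L) (fun ν (j : Fin NB) i => (ν i : ZMod (Qb s K B q j))) Kt hKt8
    (d * (2 * ((Y ^ B : ℕ) : ℝ) ^ (4 * Kt) / S)) (by positivity) heq hJ m hm
    f hf1 hf0 hdis γ hγ0 hγ (fun a => √(Λ / VV (f a)))
    (fun a => Real.sqrt_pos.2 (div_pos hΛ0 (hV0 a))) hu Λ hL' hΛ64 hKt1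
  have hcard : ((zbox μ L).card : ℝ) = ∏ i, (L i : ℝ) := by
    rw [card_zbox]
    push_cast
    rfl
  unfold zprop
  rw [div_le_iff₀ hP, ← hcard]
  have hiff : ∀ ν : Fin d → ℤ, (∀ a, σ * ∑ k ∈ inn s K B, G s q (g a) k ν < √(Λ * vr d s K q (g a) (inn s K B)) / (1 + γ)) ↔
      ∀ a : Fin m, SS (f a) (fun (j : Fin NB) i => (ν i : ZMod (Qb s K B q j))) < √(Λ / VV (f a)) * VV (f a) / (1 + γ) := by
    intro ν
    apply forall_congr'
    intro a
    rw [hSS, hT, div_lt_div_iff_of_pos_right (by positivity)]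
  refine le_trans (le_of_eq ?_) h1
  congr 1
  exact card_filter_iff _ _ _ _ _ hiff

end Pool.Agent.H46.SW
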