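import Pool.Graph.R_pool_sql_team_seeded_3997aac3.Q152.TW.Tr
import Pool.Graph.R_pool_sql_team_seeded_3997aac3.Q255.EB.Ell

/-!
# The signs of the traces of Frobenius of all curves `y² = x³ + a x + b` modulo `p`
-/

set_option autoImplicit false

namespace Pool.Agent.H46.SW

open Finset Polynomial

variable (p : ℕ) [hp : Fact p.Prime]

/-- the sum of the characters -/
noncomputable def T (a b : ZMod p) : ℤ := ∑ x : ZMod p, quadraticChar (ZMod p) (x ^ 3 + a * x + b)

/-- the number of the roots -/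
noncomputable def Rt (a b : ZMod p) : ℕ := (univ.filter fun x : ZMod p => x ^ 3 + a * x + b = 0).card

lemma T_ne (h2 : p ≠ 2) (a b : ZMod p) (h : ∀ x : ZMod p, x ^ 3 + a * x + b ≠ 0) : T p a b ≠ 0 := by
  intro h0
  have h1 : ((T p a b : ℤ) : ZMod 2) = (p : ZMod 2) := by
    unfold T
    push_cast
    have h3 : ∀ x ∈ (univ : Finset (ZMod p)), ((quadraticChar (ZMod p) (x ^ 3 + a * x + b) : ℤ) : ZMod 2) = 1 := by
      intro x _
      rcases quadraticChar_dichotomy (h x) with h4 | h4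
      · rw [h4]; rfl
      · rw [h4]; rfl
    rw [sum_congr rfl h3, sum_const, card_univ, ZMod.card, nsmul_eq_mul, mul_one]
  rw [h0] at h1
  have h3 : ((p : ℕ) : ZMod 2) = 0 := by rw [← h1]; simp
  rw [ZMod.natCast_eq_zero_iff] at h3
  rcases (Nat.dvd_prime hp.out).1 h3 with h | h
  · omega
  · exact h2 h.symm

lemma Rt_le (a b : ZMod p) : Rt p a b ≤ 3 := by
  classical
  have h1 : (X ^ 3 + C a * X + C b : (ZMod p)[X]).natDegree = 3 := by compute_degree!
  have h0 : (X ^ 3 + C a * X + C b : (ZMod p)[X]) ≠ 0 := by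
    intro h
    rw [h, natDegree_zero] at h1
    omega
  unfold Rt
  calc (univ.filter fun x : ZMod p => x ^ 3 + a * x + b = 0).card
      ≤ (X ^ 3 + C a * X + C b : (ZMod p)[X]).roots.toFinset.card := by
        apply card_le_card
        intro x hx
        rw [mem_filter] at hx
        rw [Multiset.mem_toFinset, mem_roots h0, IsRoot.def]
        simp only [eval_add, eval_mul, eval_pow, eval_X, eval_C]
        exact hx.2
    _ ≤ Multiset.card (X ^ 3 + C a * X + C b : (ZMod p)[X]).roots := Multiset.toFinset_card_le _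
    _ ≤ (X ^ 3 + C a * X + C b : (ZMod p)[X]).natDegree := card_roots' _
    _ = 3 := h1

lemma Rt_sum : ∑ a : ZMod p, ∑ b : ZMod p, (Rt p a b : ℤ) = (p : ℤ) ^ 2 := by
  classical
  have h1 : ∀ a : ZMod p, ∑ b : ZMod p, (Rt p a b : ℤ) = p := by
    intro a
    have h2 : ∀ b : ZMod p, (Rt p a b : ℤ) = ∑ x : ZMod p, if b = -(x ^ 3 + a * x) then 1 else 0 := by
      intro b
      unfold Rt
      rw [card_filter]
      push_cast
      refine sum_congr rfl fun x _ => ?_
      congr 1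
      rw [eq_iff_iff]
      constructor
      · intro h
        linear_combination h
      · intro h
        rw [h]
        ring
    rw [sum_congr rfl fun b _ => h2 b, sum_comm]
    simp
  rw [sum_congr rfl fun a _ => h1 a, sum_const, card_univ, ZMod.card, nsmul_eq_mul]
  ring

lemma Rt_sq : ∑ a : ZMod p, ∑ b : ZMod p, (Rt p a b : ℤ) ^ 2 = p * (2 * p - 1) := by
  classical
  have h1 : ∀ a b : ZMod p, (Rt p a b : ℤ) ^ 2 =
      ∑ x : ZMod p, ∑ y : ZMod p, if b = -(x ^ 3 + a * x) then (if b = -(y ^ 3 + a * y) then 1 else 0) else 0 := by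
    intro a b
    have h2 : (Rt p a b : ℤ) = ∑ x : ZMod p, if b = -(x ^ 3 + a * x) then 1 else 0 := by
      unfold Rt
      rw [card_filter]
      push_cast
      refine sum_congr rfl fun x _ => ?_
      congr 1
      rw [eq_iff_iff]
      constructor
      · intro h
        linear_combination h
      · intro h
        rw [h]
        ring
    rw [h2, sq, sum_mul_sum]
    refine sum_congr rfl fun x _ => sum_congr rfl fun y _ => ?_
    split_ifs <;> simp
  have h3 : ∑ a : ZMod p, ∑ b : ZMod p, (Rt p a b : ℤ) ^ 2 =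
      ∑ x : ZMod p, ∑ y : ZMod p, ∑ a : ZMod p, ∑ b : ZMod p,
        if b = -(x ^ 3 + a * x) then (if b = -(y ^ 3 + a * y) then (1 : ℤ) else 0) else 0 := by
    rw [sum_congr rfl fun a _ => sum_congr rfl fun b _ => h1 a b]
    calc ∑ a : ZMod p, ∑ b : ZMod p, ∑ x : ZMod p, ∑ y : ZMod p,
          (if b = -(x ^ 3 + a * x) then (if b = -(y ^ 3 + a * y) then (1 : ℤ) else 0) else 0)
        = ∑ a : ZMod p, ∑ x : ZMod p, ∑ b : ZMod p, ∑ y : ZMod p,
          (if b = -(x ^ 3 + a * x) then (if b = -(y ^ 3 + a * y) then (1 : ℤ) else 0) else 0) := by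
          refine sum_congr rfl fun a _ => ?_
          rw [sum_comm]
      _ = ∑ x : ZMod p, ∑ a : ZMod p, ∑ b : ZMod p, ∑ y : ZMod p,
          (if b = -(x ^ 3 + a * x) then (if b = -(y ^ 3 + a * y) then (1 : ℤ) else 0) else 0) := sum_comm
      _ = ∑ x : ZMod p, ∑ a : ZMod p, ∑ y : ZMod p, ∑ b : ZMod p,
          (if b = -(x ^ 3 + a * x) then (if b = -(y ^ 3 + a * y) then (1 : ℤ) else 0) else 0) := by
          refine sum_congr rfl fun x _ => sum_congr rfl fun a _ => ?_
          rw [sum_comm]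
      _ = _ := by
          refine sum_congr rfl fun x _ => ?_
          rw [sum_comm]
  rw [h3]
  have h4 : ∀ x y : ZMod p, (∑ a : ZMod p, ∑ b : ZMod p,
        if b = -(x ^ 3 + a * x) then (if b = -(y ^ 3 + a * y) then (1 : ℤ) else 0) else 0) =
      if x = y then (p : ℤ) else 1 := by
    intro x y
    have h5 : ∀ a : ZMod p, (∑ b : ZMod p,
        if b = -(x ^ 3 + a * x) then (if b = -(y ^ 3 + a * y) then (1 : ℤ) else 0) else 0) =
        if -(x ^ 3 + a * x) = -(y ^ 3 + a * y) then 1 else 0 := by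
      intro a
      rw [sum_ite_eq']
      simp
    rw [sum_congr rfl fun a _ => h5 a]
    by_cases hxy : x = y
    · rw [if_pos hxy, hxy]
      simp
    · rw [if_neg hxy]
      have h6 : ∀ a : ZMod p, (-(x ^ 3 + a * x) = -(y ^ 3 + a * y)) ↔ a = -(x ^ 2 + x * y + y ^ 2) := by
        intro a
        have h7 : x - y ≠ 0 := sub_ne_zero.2 hxy
        constructor
        · intro h
          have h8 : (x - y) * (a + (x ^ 2 + x * y + y ^ 2)) = 0 := by linear_combination -h
          rcases mul_eq_zero.1 h8 with h9 | h9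
          · exact absurd h9 h7
          · linear_combination h9
        · intro h
          rw [h]
          ring
      simp only [h6]
      rw [sum_ite_eq']
      simp
  rw [sum_congr rfl fun x _ => sum_congr rfl fun y _ => h4 x y]
  have h5 : ∀ x : ZMod p, ∑ y : ZMod p, (if x = y then (p : ℤ) else 1) = 2 * p - 1 := by
    intro x
    have h6 : ∀ y : ZMod p, (if x = y then (p : ℤ) else 1) = 1 + if x = y then ((p : ℤ) - 1) else 0 := by
      intro y
      split_ifs <;> ring
    rw [sum_congr rfl fun y _ => h6 y, sum_add_distrib, sum_ite_eq, if_pos (mem_univ _), sum_const, card_univ, ZMod.card,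
      nsmul_eq_mul]
    ring
  rw [sum_congr rfl fun x _ => h5 x, sum_const, card_univ, ZMod.card, nsmul_eq_mul]

/-- many cubics have no root -/
lemma no_root : (p : ℤ) ^ 2 - p ≤ 3 * ((univ : Finset (ZMod p × ZMod p)).filter fun ab => Rt p ab.1 ab.2 = 0).card := by
  classical
  have h1 : ∀ ab : ZMod p × ZMod p, ((3 : ℤ) - 4 * Rt p ab.1 ab.2 + (Rt p ab.1 ab.2 : ℤ) ^ 2) ≤
      3 * (if Rt p ab.1 ab.2 = 0 then 1 else 0) := by
    intro ab
    have h2 := Rt_le p ab.1 ab.2
    interval_cases h : Rt p ab.1 ab.2 <;> norm_num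
  have h2 := sum_le_sum fun ab (_ : ab ∈ (univ : Finset (ZMod p × ZMod p))) => h1 ab
  rw [← mul_sum, sum_boole, sum_add_distrib, sum_sub_distrib, ← mul_sum, sum_const, card_univ] at h2
  have h3 : ∑ ab : ZMod p × ZMod p, (Rt p ab.1 ab.2 : ℤ) = (p : ℤ) ^ 2 := by
    rw [← Rt_sum p, Fintype.sum_prod_type]
  have h4 : ∑ ab : ZMod p × ZMod p, (Rt p ab.1 ab.2 : ℤ) ^ 2 = p * (2 * p - 1) := by
    rw [← Rt_sq p, Fintype.sum_prod_type]
  rw [h3, h4, Fintype.card_prod, ZMod.card, nsmul_eq_mul] at h2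
  push_cast at h2
  linarith

/-- a singular cubic has a root -/
lemma disc_ne (h5 : 5 ≤ p) (a b : ZMod p) (h : Rt p a b = 0) : 2 * (4 * a ^ 3 + 27 * b ^ 2) ≠ 0 := by
  intro h0
  unfold Rt at h
  rw [card_eq_zero, filter_eq_empty_iff] at h
  have h2 : (2 : ZMod p) ≠ 0 := by
    intro h3
    have h4 : ((2 : ℕ) : ZMod p) = 0 := by exact_mod_cast h3
    rw [ZMod.natCast_eq_zero_iff] at h4
    have := Nat.le_of_dvd (by norm_num) h4
    omega
  have h3 : (3 : ZMod p) ≠ 0 := by
    intro h3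
    have h4 : ((3 : ℕ) : ZMod p) = 0 := by exact_mod_cast h3
    rw [ZMod.natCast_eq_zero_iff] at h4
    have := Nat.le_of_dvd (by norm_num) h4
    omega
  have h4 : 4 * a ^ 3 + 27 * b ^ 2 = 0 := by
    rcases mul_eq_zero.1 h0 with h4 | h4
    · exact absurd h4 h2
    · exact h4
  by_cases ha : a = 0
  · rw [ha] at h4
    have h6 : (3 : ZMod p) ^ 3 * b ^ 2 = 0 := by linear_combination h4
    rcases mul_eq_zero.1 h6 with h7 | h7
    · exact h3 (pow_eq_zero_iff (by norm_num) |>.1 h7)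
    · have h8 : b = 0 := pow_eq_zero_iff (by norm_num) |>.1 h7
      apply h (mem_univ (0 : ZMod p))
      rw [h8]
      ring
  · apply h (mem_univ (-3 * b / (2 * a)))
    field_simp
    linear_combination (-b) * h4

/-- the twist -/
lemma T_twist (g a b : ZMod p) (hg : quadraticChar (ZMod p) g = -1) :
    T p (g ^ 2 * a) (g ^ 3 * b) = - T p a b := by
  have hg0 : g ≠ 0 := by
    rintro rfl
    rw [quadraticChar_zero] at hg
    norm_num at hg
  unfold T
  rw [← sum_neg_distrib]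
  refine (Fintype.sum_equiv (Equiv.mulLeft₀ g hg0) _ _ fun x => ?_).symm
  show -(quadraticChar (ZMod p)) (x ^ 3 + a * x + b) = (quadraticChar (ZMod p)) ((g * x) ^ 3 + g ^ 2 * a * (g * x) + g ^ 3 * b)
  have e1 : (g * x) ^ 3 + g ^ 2 * a * (g * x) + g ^ 3 * b = g ^ 2 * (g * (x ^ 3 + a * x + b)) := by ring
  rw [e1, map_mul, map_mul, quadraticChar_sq_one' hg0, hg]
  ring

lemma disc_twist (g a b : ZMod p) (hg : g ≠ 0) : 2 * (4 * (g ^ 2 * a) ^ 3 + 27 * (g ^ 3 * b) ^ 2) = 0 ↔
    2 * (4 * a ^ 3 + 27 * b ^ 2) = 0 := by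
  have e1 : 2 * (4 * (g ^ 2 * a) ^ 3 + 27 * (g ^ 3 * b) ^ 2) = g ^ 6 * (2 * (4 * a ^ 3 + 27 * b ^ 2)) := by ring
  rw [e1, mul_eq_zero]
  constructor
  · rintro (h | h)
    · exact absurd (pow_eq_zero_iff (by norm_num) |>.1 h) hg
    · exact h
  · intro h
    exact Or.inr h

open Classical in
/-- the number of the curves with a positive trace of Frobenius -/
theorem pos_count (h5 : 5 ≤ p) :
    (p : ℤ) ^ 2 - p ≤ 6 * ((univ : Finset (ZMod p × ZMod p)).filter fun ab =>
      2 * (4 * ab.1 ^ 3 + 27 * ab.2 ^ 2) ≠ 0 ∧ T p ab.1 ab.2 < 0).card ∧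
    2 * (((univ : Finset (ZMod p × ZMod p)).filter fun ab =>
      2 * (4 * ab.1 ^ 3 + 27 * ab.2 ^ 2) ≠ 0 ∧ T p ab.1 ab.2 < 0).card : ℤ) ≤ (p : ℤ) ^ 2 := by
  have h2 : p ≠ 2 := by omega
  have hc : ringChar (ZMod p) ≠ 2 := by rwa [ZMod.ringChar_zmod_n]
  obtain ⟨g, hg⟩ := quadraticChar_exists_neg_one hc
  have hg0 : g ≠ 0 := by
    rintro rfl
    rw [quadraticChar_zero] at hg
    norm_num at hg
  obtain ⟨P, hP⟩ : ∃ P : Finset (ZMod p × ZMod p), P = univ.filter fun ab : ZMod p × ZMod p =>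
      2 * (4 * ab.1 ^ 3 + 27 * ab.2 ^ 2) ≠ 0 ∧ T p ab.1 ab.2 < 0 := ⟨_, rfl⟩
  obtain ⟨M, hM⟩ : ∃ M : Finset (ZMod p × ZMod p), M = univ.filter fun ab : ZMod p × ZMod p =>
      2 * (4 * ab.1 ^ 3 + 27 * ab.2 ^ 2) ≠ 0 ∧ 0 < T p ab.1 ab.2 := ⟨_, rfl⟩
  obtain ⟨Z, hZ⟩ : ∃ Z : Finset (ZMod p × ZMod p), Z = univ.filter fun ab : ZMod p × ZMod p =>
      Rt p ab.1 ab.2 = 0 := ⟨_, rfl⟩
  have hPM : P.card = M.card := by
    have hi : Function.Injective (fun ab : ZMod p × ZMod p => ((g ^ 2 * ab.1, g ^ 3 * ab.2) : ZMod p × ZMod p)) := by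
      intro ab ab' h
      simp only [Prod.mk.injEq] at h
      have h3 := mul_left_cancel₀ (pow_ne_zero 2 hg0) h.1
      have h4 := mul_left_cancel₀ (pow_ne_zero 3 hg0) h.2
      exact Prod.ext h3 h4
    apply le_antisymm
    · apply card_le_card_of_injOn (fun ab : ZMod p × ZMod p => ((g ^ 2 * ab.1, g ^ 3 * ab.2) : ZMod p × ZMod p)) _ hi.injOn
      intro ab hab
      rw [mem_coe, hP, mem_filter] at hab
      rw [mem_coe, hM, mem_filter]
      refine ⟨mem_univ _, ?_, ?_⟩
      · rw [Ne, disc_twist p g _ _ hg0]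
        exact hab.2.1
      · simp only
        rw [T_twist p g _ _ hg]
        linarith [hab.2.2]
    · apply card_le_card_of_injOn (fun ab : ZMod p × ZMod p => ((g ^ 2 * ab.1, g ^ 3 * ab.2) : ZMod p × ZMod p)) _ hi.injOn
      intro ab hab
      rw [mem_coe, hM, mem_filter] at hab
      rw [mem_coe, hP, mem_filter]
      refine ⟨mem_univ _, ?_, ?_⟩
      · rw [Ne, disc_twist p g _ _ hg0]
        exact hab.2.1
      · simp only
        rw [T_twist p g _ _ hg]
        linarith [hab.2.2]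
  have hdis : Disjoint P M := by
    rw [hP, hM, disjoint_filter]
    intro ab _ h3 h4
    linarith [h3.2, h4.2]
  have hZs : Z ⊆ P ∪ M := by
    intro ab hab
    rw [hZ, mem_filter] at hab
    have h3 := disc_ne p h5 ab.1 ab.2 hab.2
    have h4 : T p ab.1 ab.2 ≠ 0 := by
      apply T_ne p h2
      have h6 := hab.2
      unfold Rt at h6
      rw [card_eq_zero, filter_eq_empty_iff] at h6
      intro x
      exact h6 (mem_univ x)
    rw [mem_union, hP, hM, mem_filter, mem_filter]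
    rcases lt_or_gt_of_ne h4 with h | h
    · exact Or.inl ⟨mem_univ _, h3, h⟩
    · exact Or.inr ⟨mem_univ _, h3, h⟩
  have h1 := no_root p
  rw [← hZ] at h1
  rw [← hP]
  have h3 : (P ∪ M).card = P.card + M.card := card_union_of_disjoint hdis
  have h4 := card_le_card hZs
  have h6 : (P ∪ M).card ≤ p ^ 2 := by
    refine (card_le_univ _).trans ?_
    rw [Fintype.card_prod, ZMod.card, sq]
  have h7 : (P.card : ℤ) = M.card := by exact_mod_cast hPM
  have h8 : ((P ∪ M).card : ℤ) = P.card + M.card := by exact_mod_cast h3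
  have h9 : (Z.card : ℤ) ≤ (P ∪ M).card := by exact_mod_cast h4
  have h10 : ((P ∪ M).card : ℤ) ≤ (p : ℤ) ^ 2 := by exact_mod_cast h6
  constructor
  · linarith
  · linarith

end Pool.Agent.H46.SW
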