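import Pool.Agent.H46.SW.LoB

/-!
# The lower half of the law of the iterated logarithm for all boxes of windows
-/

set_option autoImplicit false

namespace Pool.Agent.H46.SW

open Finset Pool.Agent.Q255.EB
open Q282LT (zbox zprop avg ZPer mem_zbox card_zbox)
open Q285MD (wm tm vr Dat G avg_mono avg_add avg_smul avg_const avg_sum avg_dvd avg_abs blk inn rem Qb F)
open Pool.Agent.Q277.EB (gi gi_nonneg gi_le dat dev_eq)
open Q69DL (rst rst_dat rst_nonneg)

/-- The lower half of the law of the iterated logarithm. -/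
theorem lower (s : ℕ) (c ε δ : ℝ) (K₁ : ℕ) (hc : 0 < c) (hε : 0 < ε) (hδ : 0 < δ) (hδ1 : δ ≤ 1) : ∃ (A : ℝ) (K₀ : ℕ), 0 < A ∧ 3 ≤ K₀ ∧
    ∀ (d K : ℕ) (q : ℕ → ℕ) (x : ℕ → (Fin d → ℤ) → ℝ), Fam d (K + s) q x → K₀ ≤ K →
      (∀ K' ≤ K, K₁ ≤ K' → c * K' ≤ Vm d s q x K') →
      ∀ Y : ℕ, (∀ i < K + s, q i ≤ Y) → K ≤ Y → ∀ (μ : Fin d → ℤ) (L : Fin d → ℕ),
        (∀ i, (d + 1) * (Y : ℝ) ^ (A * Real.log (Real.log K)) ≤ L i) → ∀ σ : ℝ, (σ = 1 ∨ σ = -1) →
        zprop μ L (fun ν => ¬ ∃ K' ≤ K, (K : ℝ) ^ (1 - δ) ≤ K' ∧ ∃ I : Fin s → Set ℝ, (∀ i, (I i).OrdConnected) ∧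
          (1 - δ) * √(2 * Vm d s q x K' * Real.log (Real.log K')) ≤ σ * (count x I K' ν - cmean q x I K')) ≤ ε := by
  classical
  obtain ⟨γ, hγd⟩ : ∃ γ : ℝ, γ = δ / 32 := ⟨_, rfl⟩
  have hγ0 : 0 < γ := by rw [hγd]; positivity
  have hγ1 : γ ≤ 1 / 32 := by rw [hγd]; linarith
  obtain ⟨θ, hθ⟩ : ∃ θ : ℝ, θ = γ ^ 2 / 8 := ⟨_, rfl⟩
  have hθ0 : 0 < θ := by rw [hθ]; positivity
  have hθ1 : θ ≤ 1 / 8 := by rw [hθ]; nlinarith
  have hs0 : (0 : ℝ) ≤ s := Nat.cast_nonneg _
  obtain ⟨y₀, δ₀, A₁, hy₀, hδ₀, hA₁, H₁⟩ := Q69DL.main_upper s c (1 / 2) hc (by norm_num)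
  obtain ⟨Cr, hCr1, H₂⟩ := Q69DL.rem_tail s
  obtain ⟨B, hB⟩ : ∃ B : ℕ, B = ⌈2304 * (s : ℝ) ^ 2 / (c * θ ^ 2)⌉₊ + ⌈Cr / (4 * c * θ)⌉₊ + 1 := ⟨_, rfl⟩
  have hB1 : 1 ≤ B := by omega
  have hBr : (1 : ℝ) ≤ B := by exact_mod_cast hB1
  have hBa : 2304 * (s : ℝ) ^ 2 ≤ c * θ ^ 2 * B := by
    have h1 : 2304 * (s : ℝ) ^ 2 / (c * θ ^ 2) ≤ B := by
      refine (Nat.le_ceil _).trans ?_
      exact_mod_cast (show ⌈2304 * (s : ℝ) ^ 2 / (c * θ ^ 2)⌉₊ ≤ B by omega)
    rw [div_le_iff₀ (by positivity)] at h1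
    linarith
  have hBb : Cr ≤ 4 * c * θ * B := by
    have h1 : Cr / (4 * c * θ) ≤ B := by
      refine (Nat.le_ceil _).trans ?_
      exact_mod_cast (show ⌈Cr / (4 * c * θ)⌉₊ ≤ B by omega)
    rw [div_le_iff₀ (by positivity)] at h1
    linarith
  obtain ⟨A₂, hA₂, H₃⟩ := dat_windows s B hB1
  obtain ⟨R, hR⟩ : ∃ R : ℕ, R = B + ⌈576 * (s : ℝ) / (c * θ ^ 2)⌉₊ + ⌈16 * (s : ℝ) / c⌉₊ + 3 := ⟨_, rfl⟩
  have hR3 : 3 ≤ R := by omega
  have hRr : (3 : ℝ) ≤ R := by exact_mod_cast hR3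
  have hRB : B ≤ R := by omega
  have hRa : 576 * (s : ℝ) ≤ c * θ ^ 2 * R := by
    have h1 : 576 * (s : ℝ) / (c * θ ^ 2) ≤ R := by
      refine (Nat.le_ceil _).trans ?_
      exact_mod_cast (show ⌈576 * (s : ℝ) / (c * θ ^ 2)⌉₊ ≤ R by omega)
    rw [div_le_iff₀ (by positivity)] at h1
    linarith
  have hRb : 16 * (s : ℝ) ≤ c * R := by
    have h1 : 16 * (s : ℝ) / c ≤ R := by
      refine (Nat.le_ceil _).trans ?_
      exact_mod_cast (show ⌈16 * (s : ℝ) / c⌉₊ ≤ R by omega)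
    rw [div_le_iff₀ hc] at h1
    linarith
  obtain ⟨η, hη⟩ : ∃ η : ℝ, η = min (min (γ ^ 4 * c / (16384 * B ^ 2)) (δ₀ ^ 2 / 16)) (2 / 21) := ⟨_, rfl⟩
  have hη0 : 0 < η := by rw [hη]; exact lt_min (lt_min (by positivity) (by positivity)) (by norm_num)
  have hηa : η ≤ γ ^ 4 * c / (16384 * B ^ 2) := by rw [hη]; exact (min_le_left _ _).trans (min_le_left _ _)
  have hηb : η ≤ δ₀ ^ 2 / 16 := by rw [hη]; exact (min_le_left _ _).trans (min_le_right _ _)
  have hηc : η ≤ 2 / 21 := by rw [hη]; exact min_le_right _ _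
  obtain ⟨Λ₀, hΛ₀⟩ : ∃ Λ₀ : ℝ, Λ₀ = y₀ ^ 2 + 1 + 4 / δ + η * K₁ := ⟨_, rfl⟩
  obtain ⟨J₀, HJ⟩ := Pool.Agent.K4H16.CG.low_params γ δ ε η Λ₀ R hγ0 hγd hδ1 hε hη0 (by omega)
  refine ⟨2 * A₂ + 16 * A₁ + 43 * (s + 1), B * R ^ (J₀ + 1) + 3, by positivity, by omega, ?_⟩
  intro d K q x hF hK hV Y hY hKY μ L hL σ hσ
  have hσ1 : |σ| = 1 := by rcases hσ with h | h <;> rw [h] <;> norm_num
  have hK3 : 3 ≤ K := by omega
  have hKr : (3 : ℝ) ≤ K := by exact_mod_cast hK3
  have hY2 : 2 ≤ Y := by omega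
  have hY1 : (1 : ℝ) ≤ Y := by exact_mod_cast (show 1 ≤ Y by omega)
  -- the number of the levels
  obtain ⟨J, hJ⟩ : ∃ J : ℕ, J = Nat.log R (K / B) := ⟨_, rfl⟩
  have hKB0 : K / B ≠ 0 := by
    have h1 : R ^ (J₀ + 1) ≤ K / B := by
      rw [Nat.le_div_iff_mul_le (by omega), mul_comm]
      omega
    have h2 : 0 < R ^ (J₀ + 1) := by positivity
    omega
  have hJJ₀ : J₀ ≤ J := by
    rw [hJ]
    apply Nat.le_log_of_pow_le (by omega)
    rw [Nat.le_div_iff_mul_le (by omega), mul_comm]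
    calc B * R ^ J₀ ≤ B * R ^ (J₀ + 1) := Nat.mul_le_mul_left _ (Nat.pow_le_pow_right (by omega) (by omega))
      _ ≤ K := by omega
  have hJ1 : B * R ^ J ≤ K := by
    have h1 : R ^ J ≤ K / B := by rw [hJ]; exact Nat.pow_log_le_self R hKB0
    rw [Nat.le_div_iff_mul_le (by omega)] at h1
    rw [mul_comm]
    exact h1
  have hJ2 : K < B * R ^ (J + 1) := by
    have h1 : K / B < R ^ (J + 1) := by rw [hJ]; exact Nat.lt_pow_succ_log_self (by omega) _
    rw [Nat.div_lt_iff_lt_mul (by omega)] at h1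
    rw [mul_comm]
    exact h1
  obtain ⟨m, hm1, hm2, hmδ, hmlog, hJΛ, hJη, h64, _, hprob, hll⟩ := HJ J hJJ₀
  obtain ⟨l, hl⟩ : ∃ l : ℝ, l = Real.log J := ⟨_, rfl⟩
  obtain ⟨Λ, hΛ⟩ : ∃ Λ : ℝ, Λ = 2 * (1 - 4 * γ) * Real.log m := ⟨_, rfl⟩
  rw [← hΛ] at h64 hprob
  rw [← hl] at hmlog hJΛ hJη hprob hll
  have p1 : 0 ≤ 4 / δ := by positivity
  have p2 : 0 ≤ η * K₁ := by positivity
  have p3 : 0 ≤ y₀ ^ 2 := sq_nonneg _
  have hl1 : 1 ≤ l := by linarith
  have hl0 : 0 < l := by linarith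
  have hJr : (1 : ℝ) ≤ J := by exact_mod_cast (show 1 ≤ J by omega)
  have hmr : (1 : ℝ) ≤ m := by exact_mod_cast hm1
  have hmJ : Real.log m ≤ l := by
    rw [hl]
    apply Real.log_le_log (by linarith)
    exact_mod_cast (show m ≤ J by omega)
  have hlogm : 0 ≤ Real.log m := Real.log_nonneg hmr
  have hΛl : Λ ≤ 2 * l := by
    rw [hΛ]
    nlinarith
  have hΛge : 2 * (1 - 4 * γ) * ((1 - γ) * l) ≤ Λ := by
    rw [hΛ]
    apply mul_le_mul_of_nonneg_left hmlog
    linarith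
  have hΛ0 : 0 ≤ Λ := by
    rw [hΛ]
    apply mul_nonneg _ hlogm
    linarith
  -- log J ≤ log log K
  have hJK : (J : ℝ) ≤ Real.log K := by
    have h1 : (R : ℝ) ^ J ≤ K := by
      have h2 : R ^ J ≤ K := by
        refine le_trans ?_ hJ1
        exact Nat.le_mul_of_pos_left _ (by omega)
      exact_mod_cast h2
    have h2 : Real.log ((R : ℝ) ^ J) ≤ Real.log K := Real.log_le_log (by positivity) h1
    rw [Real.log_pow] at h2
    have h3 : 1 ≤ Real.log R := by
      rw [Real.le_log_iff_exp_le (by linarith)]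
      have := Real.exp_one_lt_d9
      linarith
    nlinarith
  have hlK : l ≤ Real.log (Real.log K) := by
    rw [hl]
    exact Real.log_le_log (by linarith) hJK
  have hllK : 0 ≤ Real.log (Real.log K) := by linarith
  have hsides : ∀ t : ℝ, t ≤ (2 * A₂ + 16 * A₁ + 43 * (s + 1)) * l → ∀ i, (d + 1) * (Y : ℝ) ^ t ≤ L i := by
    intro t ht i
    refine le_trans ?_ (hL i)
    apply mul_le_mul_of_nonneg_left _ (by positivity)
    apply Real.rpow_le_rpow_of_exponent_le hY1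
    refine ht.trans ?_
    apply mul_le_mul_of_nonneg_left hlK
    positivity
  -- the levels
  obtain ⟨Kp, hKp⟩ : ∃ Kp : ℕ → ℕ, Kp = fun a => B * R ^ (J - m + a) := ⟨_, rfl⟩
  have hKps : ∀ a, Kp (a + 1) = R * Kp a := by
    intro a
    rw [hKp]
    simp only
    rw [← add_assoc, pow_succ]
    ring
  have hKpm : ∀ a, a ≤ m → Kp a ≤ K := by
    intro a ha
    refine le_trans ?_ hJ1
    rw [hKp]
    simp only
    apply Nat.mul_le_mul_left
    apply Nat.pow_le_pow_right (by omega)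
    omega
  have hpow : ∀ a, 2 ^ (J - m) ≤ R ^ (J - m + a) := by
    intro a
    calc 2 ^ (J - m) ≤ R ^ (J - m) := Nat.pow_le_pow_left (by omega) _
      _ ≤ R ^ (J - m + a) := Nat.pow_le_pow_right (by omega) (by omega)
  have hKp2 : ∀ a, 2 ^ (J - m) ≤ Kp a := by
    intro a
    rw [hKp]
    simp only
    exact (hpow a).trans (Nat.le_mul_of_pos_left _ (by omega))
  have hKp2r : ∀ a, (2 : ℝ) ^ (J - m) ≤ Kp a := fun a => by exact_mod_cast hKp2 a
  have h2big : (21 / 2 : ℝ) * l ≤ 2 ^ (J - m) := by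
    have h1 : η * 2 ^ (J - m) ≤ 2 / 21 * 2 ^ (J - m) := mul_le_mul_of_nonneg_right hηc (by positivity)
    linarith
  have hKp10 : ∀ a, 10 ≤ Kp a := by
    intro a
    have h1 : (10 : ℝ) ≤ Kp a := by
      have := hKp2r a
      linarith
    exact_mod_cast h1
  have hKpK₁ : ∀ a, K₁ ≤ Kp a := by
    intro a
    have h1 : η * (K₁ : ℝ) ≤ η * 2 ^ (J - m) := by linarith
    have h2 : (K₁ : ℝ) ≤ 2 ^ (J - m) := le_of_mul_le_mul_left h1 hη0
    have h3 : (K₁ : ℝ) ≤ Kp a := h2.trans (hKp2r a)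
    exact_mod_cast h3
  have hVl : ∀ a, a ≤ m → c * Kp a ≤ Vm d s q x (Kp a) := fun a ha => hV _ (hKpm a ha) (hKpK₁ a)
  have hBKp : ∀ a, B ≤ Kp a := by
    intro a
    rw [hKp]
    simp only
    exact Nat.le_mul_of_pos_right _ (by positivity)
  have hspos : 0 < s := by
    rcases Nat.eq_zero_or_pos s with h | h
    · exfalso
      have h1 := hVl 0 (by omega)
      have h2 := Vm_le (s := s) hF (hKpm 0 (by omega))
      have h3 : (s : ℝ) = 0 := by exact_mod_cast h
      rw [h3] at h2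
      have h4 : (10 : ℝ) ≤ Kp 0 := by exact_mod_cast hKp10 0
      nlinarith
    · exact h
  have hsr : (0 : ℝ) < s := by exact_mod_cast hspos
  have hatt : ∀ a : Fin m, ∃ K' ≤ Kp (a + 1), ∃ I : Fin s → Set ℝ, (∀ i, (I i).OrdConnected) ∧
      (1 - θ / 4) * Vm d s q x (Kp (a + 1)) < vb q x I K' := by
    intro a
    apply Vm_attain
    have h1 := hVl (a + 1) a.2
    have h2 : (10 : ℝ) ≤ Kp (a + 1) := by exact_mod_cast hKp10 (a + 1)
    have h3 : 0 < Vm d s q x (Kp (a + 1)) := lt_of_lt_of_le (by positivity) h1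
    nlinarith [mul_pos hθ0 h3]
  choose Ks hKs I hI hvb using hatt
  have hKsp : ∀ a : Fin m, Kp a ≤ Ks a := by
    intro a
    have h1 := hVl (a + 1) a.2
    have h2 := vb_le (s := s) hF ((hKs a).trans (hKpm _ a.2)) (I a)
    have h3 := hvb a
    have h4 : (1 / 2 : ℝ) * (c * Kp (a + 1)) ≤ (1 - θ / 4) * Vm d s q x (Kp (a + 1)) := by
      have h5 : 0 ≤ c * (Kp (a + 1) : ℝ) := by positivity
      apply mul_le_mul (by linarith) h1 h5 (by linarith)
    have h5 : (Kp (a + 1) : ℝ) = R * Kp a := by rw [hKps]; push_cast; ring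
    have h6 : 16 * (s : ℝ) * Kp a ≤ c * R * Kp a := mul_le_mul_of_nonneg_right hRb (Nat.cast_nonneg _)
    have h7 : 8 * (s : ℝ) * Kp a ≤ 8 * s * Ks a := by
      rw [h5] at h4
      nlinarith
    have h8 : (Kp a : ℝ) ≤ Ks a := le_of_mul_le_mul_left h7 (by positivity)
    exact_mod_cast h8
  -- the functions
  obtain ⟨g, hg⟩ : ∃ g : Fin m → ℕ → (Fin d → ℤ) → ℝ, g = fun a : Fin m => rst (Ico (Kp a) (Ks a)) (gi x (I a)) := ⟨_, rfl⟩
  have hgD : ∀ a : Fin m, Dat d s K q (g a) := by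
    intro a
    rw [hg]
    exact rst_dat (dat hF (I a)) _
  have hgv : ∀ a : Fin m, vr d s K q (g a) (inn s K B) = vr d s K q (gi x (I a)) (inn s K B ∩ Ico (Kp a) (Ks a)) := by
    intro a
    rw [hg]
    exact rst_vr (dat hF (I a)) _ _ (filter_subset _ _)
  have hvr : ∀ a : Fin m, (1 - θ) * Vm d s q x (Kp (a + 1)) ≤ vr d s K q (gi x (I a)) (inn s K B ∩ Ico (Kp a) (Ks a)) := by
    intro a
    refine level_var hF (I a) (Kp a) (Ks a) (Kp (a + 1)) B (hKsp a) (hKs a) (hKpm _ a.2) (by omega) (hBKp _) c θ _ hc hθ0 hθ1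
      (hVl _ a.2) (hvb a).le ?_ hBa
    have h5 : (Kp (a + 1) : ℝ) = R * Kp a := by rw [hKps]; push_cast; ring
    rw [h5]
    have h6 := mul_le_mul_of_nonneg_right hRa (Nat.cast_nonneg (α := ℝ) (Kp a))
    linarith
  have hE3 := H₃ d K q m hm1 g hgD (by
    intro a b hab j
    have key : ∀ a : Fin m, ¬ (R ^ (J - m + (a : ℕ)) ≤ j ∧ j < R ^ (J - m + (a : ℕ) + 1)) → ∀ k ∈ blk s K B j, ∀ ν, g a k ν = 0 := by
      intro a ha k hk ν
      rw [hg]
      simp only
      unfold rst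
      rw [if_neg]
      intro hk2
      apply ha
      rw [blk, mem_filter] at hk
      rw [mem_Ico, hKp] at hk2
      simp only at hk2
      have hk3 : k < B * R ^ (J - m + (a : ℕ) + 1) := by
        have h1 := hKs a
        rw [hKp] at h1
        simp only at h1
        rw [add_assoc]
        omega
      have h4 : k / B = j := hk.2.1
      constructor
      · rw [← h4, Nat.le_div_iff_mul_le (by omega), mul_comm]
        exact hk2.1
      · rw [← h4, Nat.div_lt_iff_lt_mul (by omega), mul_comm]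
        exact hk3
    by_cases ha : R ^ (J - m + (a : ℕ)) ≤ j ∧ j < R ^ (J - m + (a : ℕ) + 1)
    · right
      apply key b
      intro hb
      rcases Nat.lt_or_gt_of_ne (fun h => hab (Fin.ext h)) with h | h
      · have h1 : R ^ (J - m + (a : ℕ) + 1) ≤ R ^ (J - m + (b : ℕ)) := Nat.pow_le_pow_right (by omega) (by omega)
        omega
      · have h1 : R ^ (J - m + (b : ℕ) + 1) ≤ R ^ (J - m + (a : ℕ)) := Nat.pow_le_pow_right (by omega) (by omega)
        omega
    · left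
      exact key a ha) γ Λ hγ0 (by linarith) h64 (by
    intro a
    rw [hgv]
    have h1 := hvr a
    have h2 := hVl (a + 1) a.2
    have h3 := hKp2r (a + 1)
    have h4 : c / 2 * 2 ^ (J - m) ≤ vr d s K q (gi x (I a)) (inn s K B ∩ Ico (Kp a) (Ks a)) := by
      refine le_trans ?_ h1
      have h5 : c * 2 ^ (J - m) ≤ Vm d s q x (Kp (a + 1)) := (mul_le_mul_of_nonneg_left h3 hc.le).trans h2
      have h6 : 0 ≤ c * (2 : ℝ) ^ (J - m) := by positivity
      calc c / 2 * 2 ^ (J - m) = 1 / 2 * (c * 2 ^ (J - m)) := by ring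
        _ ≤ (1 - θ) * Vm d s q x (Kp (a + 1)) := mul_le_mul (by linarith) h5 h6 (by linarith)
    have hBpos : (0 : ℝ) < 16384 * B ^ 2 := by positivity
    calc 4096 * (B : ℝ) ^ 2 * Λ ≤ 4096 * B ^ 2 * (2 * l) := mul_le_mul_of_nonneg_left hΛl (by positivity)
      _ ≤ 4096 * B ^ 2 * (2 * (γ ^ 4 * c / (16384 * B ^ 2) * 2 ^ (J - m))) := by
          apply mul_le_mul_of_nonneg_left _ (by positivity)
          apply mul_le_mul_of_nonneg_left _ (by norm_num)
          exact hJη.trans (mul_le_mul_of_nonneg_right hηa (by positivity))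
      _ = γ ^ 4 * (c / 2 * 2 ^ (J - m)) := by
          field_simp
          ring
      _ ≤ _ := mul_le_mul_of_nonneg_left h4 (by positivity)) Y hY2 hY hKY μ L (hsides _ (by
        have h1 : A₂ * Λ ≤ A₂ * (2 * l) := mul_le_mul_of_nonneg_left hΛl hA₂.le
        have h2 : 0 ≤ (16 * A₁ + 43 * (s + 1)) * l := by positivity
        linarith)) σ hσ
  -- the rough bounds
  have hE1 : ∀ a : Fin m, zprop μ L (fun ν => ∃ K' ≤ Kp a, ∃ I : Fin s → Set ℝ, (∀ i, (I i).OrdConnected) ∧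
      4 * √l * √(Vm d s q x (Kp a)) ≤ |count x I K' ν - cmean q x I K'|) ≤ Real.exp (-(4 * l)) := by
    intro a
    have hKa : Kp a ≤ K := hKpm a a.2.le
    have hF' : Fam d (Kp a + s) q x := fam_mono hF (by omega)
    have h1 := H₁ d (Kp a) q x hF' (Vm d s q x (Kp a)) (hVl a a.2.le) (by
      intro K' hK' I' hI'
      have h2 := Vm_ge hF hKa hK' I' hI'
      rw [vb_eq hF' hK' I'] at h2
      unfold vr at h2
      simp only [dev_eq]
      exact h2) (4 * √l) (by
        have h2 : y₀ ≤ √l := Real.le_sqrt_of_sq_le (by linarith)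
        have h3 : 0 ≤ √l := Real.sqrt_nonneg _
        linarith) (by
        have h2 : (16 : ℝ) * l ≤ δ₀ ^ 2 * Kp a := by
          have h3 := hKp2r a
          have h4 : η * 2 ^ (J - m) ≤ δ₀ ^ 2 / 16 * Kp a := mul_le_mul hηb h3 (by positivity) (by positivity)
          linarith
        have h3 : √(16 * l) ≤ √(δ₀ ^ 2 * Kp a) := Real.sqrt_le_sqrt h2
        rw [Real.sqrt_mul (sq_nonneg _), Real.sqrt_sq hδ₀.le, Real.sqrt_mul (by norm_num)] at h3
        have h4 : √(16 : ℝ) = 4 := by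
          rw [show (16 : ℝ) = 4 ^ 2 by norm_num]
          exact Real.sqrt_sq (by norm_num)
        rw [h4] at h3
        exact h3) Y (fun i hi => hY i (by omega)) (hKa.trans hKY) μ L (hsides _ (by
        rw [mul_pow, Real.sq_sqrt hl0.le]
        have h2 : 0 ≤ (2 * A₂ + 43 * (s + 1)) * l := by positivity
        linarith))
    refine h1.trans (le_of_eq ?_)
    congr 1
    rw [mul_pow, Real.sq_sqrt hl0.le]
    ring
  have hE2 : ∀ a : Fin m, zprop μ L (fun ν => √l * √(Cr * Kp (a + 1) / B) ≤ |∑ k ∈ rem s (Kp (a + 1)) B, G s q (g a) k ν|) ≤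
      Real.exp (-(4 * l)) := by
    intro a
    have hKa : Kp (a + 1) ≤ K := hKpm _ a.2
    have h1 := H₂ d (Kp (a + 1)) q (g a) (dat_mono (hgD a) hKa) (by
      rw [hg]
      exact rst_nonneg (fun k _ ν => gi_nonneg x (I a) k ν) _) B (by omega) (hBKp _) (√l) (Cr * Kp (a + 1) / B)
      (by rw [Real.one_le_sqrt]; exact hl1) (by
        rw [Real.sq_sqrt hl0.le]
        have h2 : (Kp (a + 1) : ℝ) / B = (R : ℝ) ^ (J - m + (a + 1)) := by
          rw [hKp]
          push_cast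
          field_simp
        rw [h2]
        have h3 : (2 : ℝ) ^ (J - m) ≤ (R : ℝ) ^ (J - m + (a + 1)) := by exact_mod_cast hpow (a + 1)
        have h4 : 21 * l ≤ 2 * (R : ℝ) ^ (J - m + (a + 1)) := by linarith
        have h5 : 0 ≤ (s : ℝ) * (R : ℝ) ^ (J - m + (a + 1)) := by positivity
        linarith) (by
        rw [div_mul_cancel₀]
        linarith) Y hY2 (fun i hi => hY i (by omega)) (hKa.trans hKY) μ L (hsides _ (by
        rw [Real.sq_sqrt hl0.le]
        have h2 : 0 ≤ (2 * A₂ + 16 * A₁) * l := by positivity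
        linarith))
    refine h1.trans ?_
    rw [Real.sq_sqrt hl0.le]
    apply Real.exp_le_exp.2
    linarith
  -- the union
  have hunion : zprop μ L (fun ν => ¬ ∃ K' ≤ K, (K : ℝ) ^ (1 - δ) ≤ K' ∧ ∃ I : Fin s → Set ℝ, (∀ i, (I i).OrdConnected) ∧
      (1 - δ) * √(2 * Vm d s q x K' * Real.log (Real.log K')) ≤ σ * (count x I K' ν - cmean q x I K')) ≤
      zprop μ L (fun ν => ∀ a, σ * ∑ k ∈ inn s K B, G s q (g a) k ν < √(Λ * vr d s K q (g a) (inn s K B)) / (1 + γ)) +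
      ∑ a : Fin m, (zprop μ L (fun ν => ∃ K' ≤ Kp a, ∃ I : Fin s → Set ℝ, (∀ i, (I i).OrdConnected) ∧
        4 * √l * √(Vm d s q x (Kp a)) ≤ |count x I K' ν - cmean q x I K'|) +
        zprop μ L (fun ν => √l * √(Cr * Kp (a + 1) / B) ≤ |∑ k ∈ rem s (Kp (a + 1)) B, G s q (g a) k ν|)) := by
    refine (Q69DL.zprop_or (Q := fun ν => ∀ a, σ * ∑ k ∈ inn s K B, G s q (g a) k ν < √(Λ * vr d s K q (g a) (inn s K B)) / (1 + γ))
      (R := fun ν => ∃ a ∈ (univ : Finset (Fin m)), ((∃ K' ≤ Kp a, ∃ I : Fin s → Set ℝ, (∀ i, (I i).OrdConnected) ∧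
        4 * √l * √(Vm d s q x (Kp a)) ≤ |count x I K' ν - cmean q x I K'|) ∨
        √l * √(Cr * Kp (a + 1) / B) ≤ |∑ k ∈ rem s (Kp (a + 1)) B, G s q (g a) k ν|)) ?_).trans ?_
    · intro ν hbad
      by_contra hcon
      push Not at hcon
      obtain ⟨⟨a, ha⟩, hno⟩ := hcon
      obtain ⟨hno1, hno2⟩ := hno a (mem_univ a)
      apply hbad
      have hKa : Ks a ≤ K := (hKs a).trans (hKpm _ a.2)
      have hKs10 : (10 : ℝ) ≤ Ks a := by exact_mod_cast (hKp10 a).trans (hKsp a)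
      have hlogKs : 1 ≤ Real.log (Ks a) := by
        rw [Real.le_log_iff_exp_le (by linarith)]
        have := Real.exp_one_lt_d9
        linarith
      have hKsR : Real.log (Ks a) ≤ (J + 1) * Real.log R := by
        have h1 : (Ks a : ℝ) ≤ (R : ℝ) ^ (J + 1) := by
          have h2 : Ks a ≤ R ^ (J + 1) := by
            calc Ks a ≤ Kp (a + 1) := hKs a
              _ ≤ B * R ^ J := by
                  rw [hKp]
                  simp only
                  apply Nat.mul_le_mul_left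
                  apply Nat.pow_le_pow_right (by omega)
                  have := a.2
                  omega
              _ ≤ R * R ^ J := Nat.mul_le_mul_right _ hRB
              _ = R ^ (J + 1) := by ring
          exact_mod_cast h2
        have h2 := Real.log_le_log (by linarith) h1
        rw [Real.log_pow] at h2
        push_cast at h2
        exact h2
      refine ⟨Ks a, hKa, ?_, I a, hI a, ?_⟩
      · -- the size
        have h1 : (K : ℝ) ≤ (R : ℝ) ^ (J + 2) := by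
          have h2 : K ≤ R ^ (J + 2) := by
            calc K ≤ B * R ^ (J + 1) := hJ2.le
              _ ≤ R * R ^ (J + 1) := Nat.mul_le_mul_right _ hRB
              _ = R ^ (J + 2) := by ring
          exact_mod_cast h2
        have h2 : (R : ℝ) ^ (J - m) ≤ Ks a := by
          have h3 : R ^ (J - m) ≤ Ks a := by
            refine le_trans ?_ (hKsp a)
            rw [hKp]
            simp only
            calc R ^ (J - m) ≤ R ^ (J - m + (a : ℕ)) := Nat.pow_le_pow_right (by omega) (by omega)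
              _ ≤ _ := Nat.le_mul_of_pos_left _ (by omega)
          exact_mod_cast h3
        refine le_trans ?_ h2
        have hδJ : 4 ≤ δ * J := by
          have h3 : 4 / δ ≤ J := by
            have h4 : l ≤ J := by
              rw [hl]
              have := Real.log_le_sub_one_of_pos (show (0 : ℝ) < J by linarith)
              linarith
            linarith
          rw [div_le_iff₀ hδ] at h3
          linarith
        calc (K : ℝ) ^ (1 - δ) ≤ ((R : ℝ) ^ (J + 2)) ^ (1 - δ) := Real.rpow_le_rpow (by linarith) h1 (by linarith)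
          _ = (R : ℝ) ^ (((J + 2 : ℕ) : ℝ) * (1 - δ)) := by
              rw [← Real.rpow_natCast, ← Real.rpow_mul (by linarith)]
          _ ≤ (R : ℝ) ^ (((J - m : ℕ) : ℝ)) := by
              apply Real.rpow_le_rpow_of_exponent_le (by linarith)
              rw [Nat.cast_sub (by omega)]
              push_cast
              nlinarith
          _ = (R : ℝ) ^ (J - m) := Real.rpow_natCast _ _
      · -- the value
        have hγδ : 1 - 32 * γ = 1 - δ := by rw [hγd]; ring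
        rw [← hγδ]
        have hg1 : ∑ k ∈ inn s K B, G s q (g a) k ν = ∑ k ∈ inn s K B ∩ Ico (Kp a) (Ks a), G s q (gi x (I a)) k ν := by
          rw [hg]
          exact rst_sum (dat hF (I a)) _ _ (filter_subset _ _) ν
        rw [hgv, hg1] at ha
        refine level_concl hF (I a) (Kp a) (Ks a) (Kp (a + 1)) B (hKsp a) (hKs a) (hKpm _ a.2) (by omega) (hBKp _) c θ γ Λ l Cr σ
          hc hγ0 hγ1 hθ (hVl _ a.2) (hvb a).le ?_ hBa (by linarith) hBb hl0 hΛge ?_ ?_ hσ1 ν ha ?_ ?_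
        · have h5 : (Kp (a + 1) : ℝ) = R * Kp a := by rw [hKps]; push_cast; ring
          rw [h5]
          have h6 := mul_le_mul_of_nonneg_right hRa (Nat.cast_nonneg (α := ℝ) (Kp a))
          linarith
        · exact Real.log_nonneg hlogKs
        · refine le_trans ?_ hll
          exact Real.log_le_log (by linarith) hKsR
        · exact (hno1 (Kp a) le_rfl (I a) (hI a)).le
        · rw [hg] at hno2
          exact hno2.le
    · apply add_le_add le_rfl
      refine (zprop_union μ L univ _ _ fun ν h => h).trans ?_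
      apply sum_le_sum
      intro a _
      exact Q69DL.zprop_or fun ν h => h
  refine hunion.trans ?_
  have hsum : ∑ a : Fin m, (zprop μ L (fun ν => ∃ K' ≤ Kp a, ∃ I : Fin s → Set ℝ, (∀ i, (I i).OrdConnected) ∧
        4 * √l * √(Vm d s q x (Kp a)) ≤ |count x I K' ν - cmean q x I K'|) +
        zprop μ L (fun ν => √l * √(Cr * Kp (a + 1) / B) ≤ |∑ k ∈ rem s (Kp (a + 1)) B, G s q (g a) k ν|)) ≤
      (m + 1) * (2 * Real.exp (-(4 * l))) := by
    calc _ ≤ ∑ _a : Fin m, (Real.exp (-(4 * l)) + Real.exp (-(4 * l))) := sum_le_sum fun a _ => add_le_add (hE1 a) (hE2 a)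
      _ = m * (2 * Real.exp (-(4 * l))) := by
          rw [sum_const, card_univ, Fintype.card_fin, nsmul_eq_mul]
          ring
      _ ≤ _ := by
          apply mul_le_mul_of_nonneg_right _ (by positivity)
          linarith
  have h1 := add_le_add hE3 hsum
  refine h1.trans ?_
  refine le_trans (le_of_eq ?_) hprob
  ring

end Pool.Agent.H46.SW
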