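import Pool.Agent.H46.SW.Blk

/-!
# The lower half: variances of the levels
-/

set_option autoImplicit false

namespace Pool.Agent.H46.SW

open Finset Pool.Agent.Q255.EB
open Q282LT (zbox zprop avg ZPer mem_zbox card_zbox)
open Q285MD (wm tm vr Dat G avg_mono avg_add avg_smul avg_const avg_sum avg_dvd avg_abs blk inn rem Qb F)
open Pool.Agent.Q277.EB (gi gi_nonneg gi_le dat dev_eq)
open Q69DL (rst rst_dat rst_nonneg)

variable {d s : ℕ} {q : ℕ → ℕ} {x : ℕ → (Fin d → ℤ) → ℝ}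

lemma rst_G1 {K : ℕ} {g : ℕ → (Fin d → ℤ) → ℝ} (h : Dat d s K q g) (X : Finset ℕ) (k : ℕ) (hk : k < K) (ν : Fin d → ℤ) :
    G s q (rst X g) k ν = if k ∈ X then G s q g k ν else 0 := by
  unfold G
  by_cases hk' : k ∈ X
  · have e : rst X g k = g k := by
      funext ν
      unfold rst
      rw [if_pos hk']
    rw [if_pos hk', e]
  · have e : rst X g k = fun _ => 0 := by
      funext ν
      unfold rst
      rw [if_neg hk']
    rw [if_neg hk', e, avg_const (h.wm_pos hk)]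
    norm_num

lemma rst_sum {K : ℕ} {g : ℕ → (Fin d → ℤ) → ℝ} (h : Dat d s K q g) (X T : Finset ℕ) (hT : T ⊆ range K) (ν : Fin d → ℤ) :
    ∑ k ∈ T, G s q (rst X g) k ν = ∑ k ∈ T ∩ X, G s q g k ν := by
  rw [sum_congr rfl fun k hk => rst_G1 h X k (mem_range.1 (hT hk)) ν, ← sum_filter, filter_mem_eq_inter]

lemma rst_vr {K : ℕ} {g : ℕ → (Fin d → ℤ) → ℝ} (h : Dat d s K q g) (X T : Finset ℕ) (hT : T ⊆ range K) :
    vr d s K q (rst X g) T = vr d s K q g (T ∩ X) := by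
  unfold vr
  congr 1
  funext ν
  rw [rst_sum h X T hT ν]

/-- the variance of a level -/
lemma level_var {K : ℕ} (hF : Fam d (K + s) q x) (I : Fin s → Set ℝ) (K₁ Ks Kl B : ℕ) (h1 : K₁ ≤ Ks) (h2 : Ks ≤ Kl) (h3 : Kl ≤ K)
    (hB : 0 < B) (hBK : B ≤ Kl) (c θ V : ℝ) (hc : 0 < c) (hθ : 0 < θ) (hθ1 : θ ≤ 1 / 8) (hV : c * Kl ≤ V)
    (hvb : (1 - θ / 4) * V ≤ vb q x I Ks) (hR : 576 * s * K₁ ≤ c * θ ^ 2 * Kl) (hB2 : 2304 * (s : ℝ) ^ 2 ≤ c * θ ^ 2 * B) :
    (1 - θ) * V ≤ vr d s K q (gi x I) (inn s K B ∩ Ico K₁ Ks) := by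
  classical
  have hD := dat (K := K) hF I
  have hBr : (0 : ℝ) < B := by exact_mod_cast hB
  have hs : (0 : ℝ) ≤ s := Nat.cast_nonneg _
  have hKl : (B : ℝ) ≤ Kl := by exact_mod_cast hBK
  have hKl0 : (0 : ℝ) < Kl := by linarith
  have hV0 : 0 < V := lt_of_lt_of_le (by positivity) hV
  obtain ⟨u, hu⟩ : ∃ u : ℝ, u = θ / 8 := ⟨_, rfl⟩
  have hu0 : 0 < u := by rw [hu]; positivity
  have hu1 : 1 + 1 / u ≤ 9 / θ := by
    have e : 1 + 1 / u = 1 + 8 / θ := by rw [hu]; field_simp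
    have : 1 ≤ 1 / θ := by rw [le_div_iff₀ hθ]; linarith
    have e2 : 9 / θ = 1 / θ + 8 / θ := by ring
    rw [e, e2]
    linarith
  have hu2 : 0 < 1 + 1 / u := by positivity
  -- the first step
  have hsplit1 : range Ks = range K₁ ∪ Ico K₁ Ks := by
    ext k
    rw [mem_union, mem_range, mem_range, mem_Ico]
    omega
  have hdis1 : Disjoint (Ico K₁ Ks) (range K₁) := by
    rw [disjoint_left]
    intro k h4 h5
    rw [mem_range] at h5
    rw [mem_Ico] at h4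
    omega
  have a1 := (Q285MD.vr_add (d := d) (s := s) (K := K) (q := q) (g := gi x I) (Ico K₁ Ks) (range K₁) hdis1 u hu0).1
  rw [union_comm, ← hsplit1, ← vb_eq hF (h2.trans h3)] at a1
  have a2 := hD.vr_le (range K₁) (range_subset_range.2 (by omega))
  rw [card_range] at a2
  -- the second step
  have hsplit2 : Ico K₁ Ks = (inn s K B ∩ Ico K₁ Ks) ∪ (rem s K B ∩ Ico K₁ Ks) := by
    rw [← union_inter_distrib_right, Q285MD.inn_rem]
    symm
    rw [inter_eq_right]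
    intro k hk
    rw [mem_Ico] at hk
    rw [mem_range]
    omega
  have hdis2 : Disjoint (inn s K B ∩ Ico K₁ Ks) (rem s K B ∩ Ico K₁ Ks) :=
    Disjoint.mono inter_subset_left inter_subset_left (Q285MD.disj s K B)
  have b1 := (Q285MD.vr_add (d := d) (s := s) (K := K) (q := q) (g := gi x I) _ _ hdis2 u hu0).1
  rw [← hsplit2] at b1
  have b2 := hD.vr_le (rem s K B ∩ Ico K₁ Ks) (inter_subset_left.trans (filter_subset _ _))
  have b3 : ((rem s K B ∩ Ico K₁ Ks).card : ℝ) ≤ 2 * s * (Kl / B) := by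
    have b4 : (rem s K B ∩ Ico K₁ Ks).card ≤ (rem s Kl B).card := by
      apply card_le_card
      intro k hk
      rw [mem_inter, rem, mem_filter, mem_Ico] at hk
      rw [rem, mem_filter, mem_range]
      exact ⟨by omega, hk.1.2⟩
    have b5 := Q285MD.card_rem s Kl B hB
    have b6 : ((rem s K B ∩ Ico K₁ Ks).card : ℝ) ≤ (rem s Kl B).card := by exact_mod_cast b4
    have b7 : 1 ≤ (Kl : ℝ) / B := (one_le_div hBr).2 hKl
    calc ((rem s K B ∩ Ico K₁ Ks).card : ℝ) ≤ s * (Kl / B + 1) := b6.trans b5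
      _ ≤ s * (Kl / B + Kl / B) := mul_le_mul_of_nonneg_left (by linarith) hs
      _ = _ := by ring
  obtain ⟨v, hv⟩ : ∃ v : ℝ, v = vr d s K q (gi x I) (inn s K B ∩ Ico K₁ Ks) := ⟨_, rfl⟩
  obtain ⟨X, hX⟩ : ∃ X : ℝ, X = vr d s K q (gi x I) (Ico K₁ Ks) := ⟨_, rfl⟩
  rw [← hv] at b1 ⊢
  rw [← hX] at a1 b1
  have e1 : (1 + 1 / u) * vr d s K q (gi x I) (range K₁) ≤ θ / 8 * V := by
    calc (1 + 1 / u) * vr d s K q (gi x I) (range K₁) ≤ 9 / θ * (8 * s * K₁) := by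
          apply mul_le_mul hu1 a2 (Q285MD.vr_nonneg hD _) (by positivity)
      _ = (576 * s * K₁) / (8 * θ) := by
          field_simp
          ring
      _ ≤ (c * θ ^ 2 * Kl) / (8 * θ) := div_le_div_of_nonneg_right hR (by positivity)
      _ = θ / 8 * (c * Kl) := by
          field_simp
      _ ≤ θ / 8 * V := mul_le_mul_of_nonneg_left hV (by positivity)
  have e2 : (1 + u) * ((1 + 1 / u) * vr d s K q (gi x I) (rem s K B ∩ Ico K₁ Ks)) ≤ θ / 8 * V := by
    have e3 : vr d s K q (gi x I) (rem s K B ∩ Ico K₁ Ks) ≤ 16 * (s : ℝ) ^ 2 * (Kl / B) := by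
      refine b2.trans ?_
      calc 8 * (s : ℝ) * ((rem s K B ∩ Ico K₁ Ks).card : ℝ) ≤ 8 * s * (2 * s * (Kl / B)) := mul_le_mul_of_nonneg_left b3 (by positivity)
        _ = _ := by ring
    have e4 : (1 + u) ≤ 8 / 7 := by rw [hu]; linarith
    calc (1 + u) * ((1 + 1 / u) * vr d s K q (gi x I) (rem s K B ∩ Ico K₁ Ks))
        ≤ (8 / 7) * (9 / θ * (16 * (s : ℝ) ^ 2 * (Kl / B))) := by
          apply mul_le_mul e4 (mul_le_mul hu1 e3 (Q285MD.vr_nonneg hD _) (by positivity))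
            (mul_nonneg hu2.le (Q285MD.vr_nonneg hD _)) (by norm_num)
      _ = (2304 * (s : ℝ) ^ 2) * (Kl / (14 * B * θ)) := by
          field_simp
          ring
      _ ≤ (c * θ ^ 2 * B) * (Kl / (14 * B * θ)) := mul_le_mul_of_nonneg_right hB2 (by positivity)
      _ = θ / 14 * (c * Kl) := by
          field_simp
      _ ≤ θ / 8 * V := by
          apply mul_le_mul (by linarith) hV (by positivity) (by positivity)
  have e5 : (1 - θ / 2) * V ≤ (1 + u) ^ 2 * v := by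
    have e6 : (1 + u) * X ≤ (1 + u) * ((1 + u) * v + (1 + 1 / u) * vr d s K q (gi x I) (rem s K B ∩ Ico K₁ Ks)) :=
      mul_le_mul_of_nonneg_left b1 (by linarith)
    nlinarith
  have hv0 : 0 ≤ v := by rw [hv]; exact Q285MD.vr_nonneg hD _
  have e7 : (1 + u) ^ 2 ≤ 1 + θ / 2 := by
    rw [hu]
    nlinarith
  have e8 : (1 - θ / 2) * V ≤ (1 + θ / 2) * v := e5.trans (mul_le_mul_of_nonneg_right e7 hv0)
  by_contra hcon
  push Not at hcon
  have e9 : (1 + θ / 2) * v < (1 + θ / 2) * ((1 - θ) * V) := mul_lt_mul_of_pos_left hcon (by linarith)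
  nlinarith [mul_pos hθ hV0, mul_pos (mul_pos hθ hθ) hV0]

end Pool.Agent.H46.SW
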