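import Pool.Agent.H46.SW.Blk
import Pool.Agent.H46.SW.Cub

/-!
# The variance in the family of all curves `y² = x³ + a x + b`
-/

set_option autoImplicit false

namespace Pool.Agent.H46.SW

open Finset Pool.Agent.Q255.EB
open Q282LT (zbox zprop avg ZPer mem_zbox card_zbox)
open Q285MD (wm tm vr Dat G avg_mono avg_add avg_smul avg_const avg_sum avg_dvd avg_abs avg_prod)
open Pool.Agent.Q277.EB (gi gi_nonneg gi_le dat dev_eq)

lemma points_conv (p : ℕ) [hp : Fact p.Prime] (A B : ℤ) : points p A B = Pool.Agent.Q152.TW.points p A B := by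
  classical
  unfold points Pool.Agent.Q152.TW.points
  rw [Nat.card_eq_fintype_card, Fintype.card_subtype]
  refine card_nbij' (fun z => ((z.1 : ZMod p), (z.2 : ZMod p))) (fun z => (z.1.val, z.2.val)) ?_ ?_ ?_ ?_
  · intro z hz
    rw [mem_coe, mem_filter] at hz
    rw [mem_coe, mem_filter]
    refine ⟨mem_univ _, ?_⟩
    have h1 := (ZMod.intCast_zmod_eq_zero_iff_dvd _ p).2 hz.2
    push_cast at h1
    exact sub_eq_zero.1 h1
  · intro z hz
    rw [mem_coe, mem_filter] at hz
    rw [mem_coe, mem_filter, mem_product, mem_range, mem_range]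
    refine ⟨⟨ZMod.val_lt _, ZMod.val_lt _⟩, ?_⟩
    rw [← ZMod.intCast_zmod_eq_zero_iff_dvd]
    push_cast
    rw [ZMod.natCast_zmod_val, ZMod.natCast_zmod_val]
    exact sub_eq_zero.2 hz.2
  · intro z hz
    rw [mem_coe, mem_filter, mem_product, mem_range, mem_range] at hz
    exact Prod.ext (ZMod.val_cast_of_lt hz.1.1) (ZMod.val_cast_of_lt hz.1.2)
  · intro z _
    exact Prod.ext (ZMod.natCast_zmod_val _) (ZMod.natCast_zmod_val _)

lemma angle_lt (p : ℕ) [hp : Fact p.Prime] (h2 : p ≠ 2) (A B : ℤ) : angle A B p < 1 / 2 ↔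
    (2 * (4 * (A : ZMod p) ^ 3 + 27 * (B : ZMod p) ^ 2) ≠ 0 ∧ T p A B < 0) := by
  have h1 : (points p A B : ℤ) = p + T p A B := by
    rw [points_conv, Pool.Agent.Q152.TW.points_eq p h2, sum_add_distrib, sum_const, card_univ, ZMod.card, nsmul_eq_mul, mul_one]
    unfold T
    ring
  have h1r : (points p A B : ℝ) = p + (T p A B : ℤ) := by exact_mod_cast h1
  have h3 : ((p : ℤ) ∣ 2 * (4 * A ^ 3 + 27 * B ^ 2)) ↔ 2 * (4 * (A : ZMod p) ^ 3 + 27 * (B : ZMod p) ^ 2) = 0 := by
    rw [← ZMod.intCast_zmod_eq_zero_iff_dvd]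
    push_cast
    rfl
  unfold angle
  by_cases hd : (p : ℤ) ∣ 2 * (4 * A ^ 3 + 27 * B ^ 2)
  · rw [if_pos hd]
    constructor
    · intro h
      exact absurd h (lt_irrefl _)
    · intro h
      exact absurd (h3.1 hd) h.1
  · rw [if_neg hd]
    have hp0 : (0 : ℝ) < 2 * √(p : ℝ) := by
      have := Real.sqrt_pos.2 (show (0 : ℝ) < p by exact_mod_cast hp.out.pos)
      positivity
    rw [div_lt_iff₀ Real.pi_pos, one_div, ← div_eq_inv_mul, Real.arccos_lt_pi_div_two, div_pos_iff_of_pos_right hp0, h1r]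
    constructor
    · intro h
      refine ⟨fun h4 => hd (h3.2 h4), ?_⟩
      have : ((T p A B : ℤ) : ℝ) < 0 := by linarith
      exact_mod_cast this
    · intro h
      have : ((T p A B : ℤ) : ℝ) < 0 := by exact_mod_cast h.2
      linarith

open Classical in
/-- the proportion of the curves with a positive trace of Frobenius -/
lemma prob_pos (p : ℕ) [hp : Fact p.Prime] (h5 : 5 ≤ p) :
    2 / 15 ≤ avg 2 p (fun ν => if angle (ν 0) (ν 1) p < 1 / 2 then 1 else 0) ∧
    avg 2 p (fun ν => if angle (ν 0) (ν 1) p < 1 / 2 then 1 else 0) ≤ 1 / 2 := by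
  have h2 : p ≠ 2 := by omega
  have hpos : 0 < p := by omega
  have : NeZero p := ⟨by omega⟩
  obtain ⟨c1, c2⟩ := pos_count p h5
  set N : ℕ := ((univ : Finset (ZMod p × ZMod p)).filter fun ab =>
      2 * (4 * ab.1 ^ 3 + 27 * ab.2 ^ 2) ≠ 0 ∧ T p ab.1 ab.2 < 0).card with hN
  have h1 : avg 2 p (fun ν => if angle (ν 0) (ν 1) p < 1 / 2 then (1 : ℝ) else 0) = N / (p : ℝ) ^ 2 := by
    rw [← avg_zmod]
    unfold Pool.Agent.K4H16.CG.avg
    have h3 : (Fintype.card (Fin 2 → ZMod p) : ℝ) = (p : ℝ) ^ 2 := by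
      rw [Fintype.card_fun, ZMod.card, Fintype.card_fin]
      push_cast
      rfl
    rw [h3]
    congr 1
    have h4 : ∀ b : Fin 2 → ZMod p, (if angle (rp p b 0) (rp p b 1) p < 1 / 2 then (1 : ℝ) else 0) =
        if (2 * (4 * (b 0) ^ 3 + 27 * (b 1) ^ 2) ≠ 0 ∧ T p (b 0) (b 1) < 0) then 1 else 0 := by
      intro b
      have e0 : ((rp p b 0 : ℤ) : ZMod p) = b 0 := by
        unfold rp
        push_cast
        exact ZMod.natCast_zmod_val _
      have e1 : ((rp p b 1 : ℤ) : ZMod p) = b 1 := by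
        unfold rp
        push_cast
        exact ZMod.natCast_zmod_val _
      have h6 := angle_lt p h2 (rp p b 0) (rp p b 1)
      rw [e0, e1] at h6
      by_cases h7 : angle (rp p b 0) (rp p b 1) p < 1 / 2
      · rw [if_pos h7, if_pos (h6.1 h7)]
      · rw [if_neg h7, if_neg (fun h8 => h7 (h6.2 h8))]
    rw [sum_congr rfl fun b _ => h4 b, sum_boole, hN]
    congr 1
    refine card_nbij' (fun b => (b 0, b 1)) (fun ab => ![ab.1, ab.2]) ?_ ?_ ?_ ?_
    · intro b hb
      rw [mem_coe, mem_filter] at hb ⊢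
      exact ⟨mem_univ _, hb.2⟩
    · intro ab hab
      rw [mem_coe, mem_filter] at hab ⊢
      exact ⟨mem_univ _, hab.2⟩
    · intro b _
      funext i
      fin_cases i <;> rfl
    · intro ab _
      rfl
  rw [h1]
  have hp5 : (5 : ℝ) ≤ p := by exact_mod_cast h5
  have c1' : (p : ℝ) ^ 2 - p ≤ 6 * N := by exact_mod_cast c1
  have c2' : 2 * (N : ℝ) ≤ (p : ℝ) ^ 2 := by exact_mod_cast c2
  constructor
  · rw [le_div_iff₀ (by positivity)]
    nlinarith
  · rw [div_le_iff₀ (by positivity)]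
    linarith

/-- the box of the windows whose first angle is less than `1 / 2` -/
noncomputable def I0 (s : ℕ) (i : Fin s) : Set ℝ := if (i : ℕ) = 0 then Set.Iio (1 / 2) else Set.univ

lemma I0_ord (s : ℕ) (i : Fin s) : (I0 s i).OrdConnected := by
  unfold I0
  split_ifs
  · exact Set.ordConnected_Iio
  · exact Set.ordConnected_univ

open Classical in
lemma gi_I0 {d s : ℕ} (hs : 0 < s) (x : ℕ → (Fin d → ℤ) → ℝ) (k : ℕ) :
    gi x (I0 s) k = fun ν => if x k ν < 1 / 2 then (1 : ℝ) else 0 := by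
  funext ν
  unfold gi
  have h1 : (∀ i : Fin s, x (k + i) ν ∈ I0 s i) ↔ x k ν < 1 / 2 := by
    constructor
    · intro h
      have h2 := h ⟨0, hs⟩
      unfold I0 at h2
      rw [if_pos rfl] at h2
      exact h2
    · intro h i
      unfold I0
      split_ifs with h3
      · rw [h3, add_zero]
        exact h
      · exact Set.mem_univ _
  by_cases h : x k ν < 1 / 2
  · rw [if_pos h, if_pos (h1.2 h)]
  · rw [if_neg h, if_neg (fun h2 => h (h1.1 h2))]

open Classical in
/-- a general bound: independent indicators -/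
lemma vb_I0 {d s K : ℕ} (hs : 0 < s) {q : ℕ → ℕ} {x : ℕ → (Fin d → ℤ) → ℝ} (hF : Fam d (K + s) q x) :
    vb q x (I0 s) K = ∑ k ∈ range K, (avg d (q k) (fun ν => if x k ν < 1 / 2 then (1 : ℝ) else 0) -
      avg d (q k) (fun ν => if x k ν < 1 / 2 then (1 : ℝ) else 0) ^ 2) := by
  obtain ⟨f, hf⟩ : ∃ f : ℕ → (Fin d → ℤ) → ℝ, f = fun k ν => if x k ν < 1 / 2 then (1 : ℝ) else 0 := ⟨_, rfl⟩
  obtain ⟨m, hm⟩ : ∃ m : ℕ → ℝ, m = fun k => avg d (q k) (f k) := ⟨_, rfl⟩
  have hgi : ∀ k, gi x (I0 s) k = f k := fun k => by rw [gi_I0 hs, hf]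
  have hper : ∀ k < K + s, ZPer (q k) (f k) := by
    intro k hk ν ν' h
    rw [hf]
    simp only
    rw [hF.per k hk ν ν' h]
  have hD := dat hF (I0 s)
  have hav : ∀ k < K, avg d (wm q s k) (f k) = m k := by
    intro k hk
    rw [hm]
    refine avg_dvd (hD.wm_pos hk) ?_ (hper k (by omega))
    unfold wm
    exact dvd_prod_of_mem _ (by rw [mem_Ico]; omega)
  have hG : ∀ k < K, G s q (gi x (I0 s)) k = fun ν => f k ν - m k := by
    intro k hk
    funext ν
    unfold G
    rw [hgi, hav k hk]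
  have hGper : ∀ k < K, ZPer (q k) (fun ν => f k ν - m k) := fun k hk => Q285MD.ZPer.sub_const (hper k (by omega)) _
  have hGav : ∀ k < K, avg d (q k) (fun ν => f k ν - m k) = 0 := by
    intro k hk
    have h1 : (fun ν => f k ν - m k) = fun ν => f k ν + (fun _ : Fin d → ℤ => -m k) ν := by
      funext ν
      ring
    rw [h1, avg_add, avg_const (hF.q1 k (by omega)), hm]
    ring
  have hqd : ∀ k < K, q k ∣ tm q (K + s) := by
    intro k hk
    unfold tm
    exact dvd_prod_of_mem _ (by rw [mem_range]; omega)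
  rw [vb_eq hF le_rfl]
  unfold vr
  simp only [Q285MD.sq_sum]
  rw [avg_sum]
  refine sum_congr rfl fun k hk => ?_
  rw [mem_range] at hk
  rw [avg_sum, sum_eq_single k]
  · rw [hG k hk]
    simp only
    have h1 : avg d (tm q (K + s)) (fun ν => (f k ν - m k) * (f k ν - m k)) =
        avg d (q k) (fun ν => (f k ν - m k) * (f k ν - m k)) :=
      avg_dvd hD.tm_pos (hqd k hk) (Q285MD.ZPer.mul (hGper k hk) (hGper k hk))
    rw [h1]
    have h2 : (fun ν => (f k ν - m k) * (f k ν - m k)) =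
        fun ν => (fun ν => (1 - 2 * m k) * f k ν) ν + (fun _ : Fin d → ℤ => m k ^ 2) ν := by
      funext ν
      have h3 : f k ν * f k ν = f k ν := by
        rw [hf]
        simp only
        split_ifs <;> norm_num
      simp only
      linear_combination h3
    rw [h2, avg_add, avg_smul, avg_const (hF.q1 k (by omega))]
    have h3 : avg d (q k) (f k) = m k := by rw [hm]
    rw [h3]
    have h4 : avg d (q k) (fun ν => if x k ν < 1 / 2 then (1 : ℝ) else 0) = m k := by rw [hm, hf]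
    rw [h4]
    ring
  · intro l hl hlk
    rw [mem_range] at hl
    rw [hG k hk, hG l hl]
    simp only
    have hc := hF.cop k (by omega) l (by omega) (fun h => hlk h.symm)
    have h0 : 1 ≤ q k := hF.q1 k (by omega)
    have h0' : 1 ≤ q l := hF.q1 l (by omega)
    have h1 : avg d (tm q (K + s)) (fun ν => (f k ν - m k) * (f l ν - m l)) =
        avg d (q k * q l) (fun ν => (f k ν - m k) * (f l ν - m l)) :=
      avg_dvd hD.tm_pos (hc.mul_dvd_of_dvd_of_dvd (hqd k hk) (hqd l hl))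
        (Q285MD.ZPer.mul (Q285MD.ZPer.of_dvd (Dvd.intro _ rfl) (hGper k hk))
          (Q285MD.ZPer.of_dvd (Dvd.intro_left _ rfl) (hGper l hl)))
    rw [h1, avg_prod h0 h0' hc (hGper k hk) (hGper l hl), hGav k hk, zero_mul]
  · intro h
    exact absurd (mem_range.2 hk) h

/-- the variance of the windows whose first angle is less than `1 / 2`, in the family of all curves -/
theorem uni (s : ℕ) (hs : 0 < s) (K : ℕ) (hK : 4 ≤ K) :
    (1 / 30 : ℝ) * K ≤ boxVariance (MvPolynomial.X 0 : MvPolynomial (Fin 2) ℤ) (MvPolynomial.X 1) (I0 s) K := by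
  classical
  rw [boxVariance_eq]
  have h1 := vb_I0 hs (fam (MvPolynomial.X 0 : MvPolynomial (Fin 2) ℤ) (MvPolynomial.X 1) (K + s))
  unfold vb at h1
  rw [h1]
  have hang : ∀ (k : ℕ) (ν : Fin 2 → ℤ), ang (MvPolynomial.X 0 : MvPolynomial (Fin 2) ℤ) (MvPolynomial.X 1) k ν = angle (ν 0) (ν 1) (pk k) := by
    intro k ν
    unfold ang
    rw [MvPolynomial.eval_X, MvPolynomial.eval_X]
  simp only [hang]
  have hpk : ∀ k, 2 ≤ k → 5 ≤ pk k := by
    intro k hk
    have h2 : pk 2 ≤ pk k := pk_strictMono.monotone hk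
    have h3 : 2 ≤ pk 0 := (pk_prime 0).two_le
    have h4 : pk 0 < pk 1 := pk_strictMono (by norm_num)
    have h5 : pk 1 < pk 2 := pk_strictMono (by norm_num)
    have h6 : pk 2 ≠ 4 := by
      intro h
      have := pk_prime 2
      rw [h] at this
      norm_num at this
    omega
  have hterm : ∀ k ∈ range K, (if 2 ≤ k then (1 / 15 : ℝ) else 0) ≤
      avg 2 (pk k) (fun ν => if angle (ν 0) (ν 1) (pk k) < 1 / 2 then (1 : ℝ) else 0) -
      avg 2 (pk k) (fun ν => if angle (ν 0) (ν 1) (pk k) < 1 / 2 then (1 : ℝ) else 0) ^ 2 := by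
    intro k _
    split_ifs with h2
    · haveI : Fact (pk k).Prime := ⟨pk_prime k⟩
      obtain ⟨c1, c2⟩ := prob_pos (pk k) (hpk k h2)
      nlinarith
    · have h3 : 1 ≤ pk k := (pk_prime k).one_lt.le
      have h4 : avg 2 (pk k) (fun _ => (0 : ℝ)) ≤ avg 2 (pk k) (fun ν => if angle (ν 0) (ν 1) (pk k) < 1 / 2 then (1 : ℝ) else 0) := by
        apply avg_mono
        intro ν
        split_ifs <;> norm_num
      have h5 : avg 2 (pk k) (fun ν => if angle (ν 0) (ν 1) (pk k) < 1 / 2 then (1 : ℝ) else 0) ≤ avg 2 (pk k) (fun _ => (1 : ℝ)) := by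
        apply avg_mono
        intro ν
        split_ifs <;> norm_num
      rw [avg_const h3] at h4 h5
      nlinarith
  refine le_trans ?_ (sum_le_sum hterm)
  rw [← sum_filter, sum_const, nsmul_eq_mul]
  have h6 : (range K).filter (fun k => 2 ≤ k) = Ico 2 K := by
    ext k
    rw [mem_filter, mem_range, mem_Ico]
    omega
  rw [h6, Nat.card_Ico, Nat.cast_sub (by omega)]
  have h7 : (4 : ℝ) ≤ K := by exact_mod_cast hK
  push_cast
  linarith

end Pool.Agent.H46.SW
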