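import Pool.Agent.H46.SW.Vm
import Pool.Agent.H46.SW.NumU

/-!
# The upper half of the law of the iterated logarithm for all boxes of windows
-/

set_option autoImplicit false

namespace Pool.Agent.H46.SW

open Finset Pool.Agent.Q255.EB
open Q282LT (zbox zprop avg ZPer)
open Q285MD (wm tm vr Dat G avg_mono avg_add avg_smul avg_const avg_sum avg_dvd avg_abs)
open Pool.Agent.Q277.EB (gi gi_nonneg gi_le dat dev_eq)

variable {d s : ℕ} {q : ℕ → ℕ} {x : ℕ → (Fin d → ℤ) → ℝ}

lemma zprop_union {κ : Type} (m : Fin d → ℤ) (L : Fin d → ℕ) (T : Finset κ) (P : (Fin d → ℤ) → Prop) (Q : κ → (Fin d → ℤ) → Prop)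
    (h : ∀ ν, P ν → ∃ t ∈ T, Q t ν) : zprop m L P ≤ ∑ t ∈ T, zprop m L (Q t) := by
  classical
  unfold zprop
  rw [← sum_div]
  refine div_le_div_of_nonneg_right ?_ (prod_nonneg fun i _ => Nat.cast_nonneg _)
  have h1 : ((zbox m L).filter P) ⊆ T.biUnion (fun t => (zbox m L).filter (Q t)) := by
    intro ν hν
    rw [mem_filter] at hν
    obtain ⟨t, ht, hQ⟩ := h ν hν.2
    rw [mem_biUnion]
    exact ⟨t, ht, mem_filter.2 ⟨hν.1, hQ⟩⟩
  have h2 := (card_le_card h1).trans card_biUnion_le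
  exact_mod_cast h2

lemma zprop_empty (m : Fin d → ℤ) (L : Fin d → ℕ) (P : (Fin d → ℤ) → Prop) (h : ∀ ν, ¬ P ν) : zprop m L P = 0 := by
  classical
  unfold zprop
  rw [filter_false_of_mem (fun ν _ => h ν)]
  simp

/-- the rank of the level -/
noncomputable def lev (η : ℝ) (K : ℕ) : ℕ := ⌊Real.log K / η⌋₊ + 1

/-- the length of the level -/
noncomputable def Nl (η : ℝ) (K l : ℕ) : ℕ := min ⌊Real.exp (η * l)⌋₊ K

lemma lev_lt (η : ℝ) (hη : 0 < η) (K : ℕ) (hK : 1 ≤ K) : Real.log K < η * lev η K ∧ η * (lev η K - 1) ≤ Real.log K := by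
  have hK1 : (1 : ℝ) ≤ K := by exact_mod_cast hK
  have hl := Real.log_nonneg hK1
  unfold lev
  push_cast
  constructor
  · have := Nat.lt_floor_add_one (Real.log K / η)
    rw [div_lt_iff₀ hη] at this
    linarith
  · have := Nat.floor_le (show 0 ≤ Real.log K / η by positivity)
    rw [le_div_iff₀ hη] at this
    linarith

/-- The upper half of the law of the iterated logarithm. -/
theorem upper (s : ℕ) (c ε δ : ℝ) (K₁ : ℕ) (hc : 0 < c) (hε : 0 < ε) (hδ : 0 < δ) (hδ1 : δ ≤ 1) : ∃ (A : ℝ) (K₀ : ℕ), 0 < A ∧ 3 ≤ K₀ ∧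
    ∀ (d K : ℕ) (q : ℕ → ℕ) (x : ℕ → (Fin d → ℤ) → ℝ), Fam d (K + s) q x →
      (∀ K' ≤ K, K₁ ≤ K' → c * K' ≤ Vm d s q x K') →
      ∀ Y : ℕ, (∀ i < K + s, q i ≤ Y) → K ≤ Y → ∀ (m : Fin d → ℤ) (L : Fin d → ℕ),
        (∀ i, (d + 1) * (Y : ℝ) ^ (A * Real.log (Real.log K)) ≤ L i) →
        zprop m L (fun ν => ∃ K' ≤ K, K₀ ≤ K' ∧ ∃ I : Fin s → Set ℝ, (∀ i, (I i).OrdConnected) ∧
          (1 + δ) * √(2 * Vm d s q x K' * Real.log (Real.log K')) ≤ |count x I K' ν - cmean q x I K'|) ≤ ε := by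
  obtain ⟨y₀, δ₀, A₁, hy₀, hδ₀, hA₁, H⟩ := Q69DL.main_upper s c (δ / 12) hc (by positivity)
  obtain ⟨θ, hθ⟩ : ∃ θ : ℝ, θ = c * δ ^ 2 / (2000 * (s + 1)) := ⟨_, rfl⟩
  have hs0 : (0 : ℝ) ≤ s := Nat.cast_nonneg _
  have hθ0 : 0 < θ := by rw [hθ]; positivity
  obtain ⟨η, hη⟩ : ∃ η : ℝ, η = Real.log (1 + θ) := ⟨_, rfl⟩
  have hη0 : 0 < η := by rw [hη]; exact Real.log_pos (by linarith)
  have hexp : Real.exp η = 1 + θ := by rw [hη]; exact Real.exp_log (by linarith)
  obtain ⟨l₁, hl₁⟩ := tail_sum δ ε hδ hε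
  obtain ⟨l₂, hl₂⟩ := ev_nums η y₀ δ₀ δ hη0 hδ₀ hδ hδ1
  obtain ⟨l₀, hl₀⟩ : ∃ l₀ : ℕ, l₀ = l₁ + l₂ + 2 := ⟨_, rfl⟩
  obtain ⟨D, hD⟩ : ∃ D : ℝ, D = Real.log (1 / η + 1) := ⟨_, rfl⟩
  have hD0 : 0 ≤ D := by
    rw [hD]
    apply Real.log_nonneg
    have : 0 < 1 / η := by positivity
    linarith
  obtain ⟨K₂, hK₂3, hK₂⟩ := ev_loglog (1 + 6 * D / δ + η * l₀)
  obtain ⟨K₀, hK₀d⟩ : ∃ K₀ : ℕ, K₀ = max K₂ K₁ := ⟨_, rfl⟩
  have hK₀₂ : K₂ ≤ K₀ := by rw [hK₀d]; exact le_max_left _ _
  have hK₀₁ : K₁ ≤ K₀ := by rw [hK₀d]; exact le_max_right _ _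
  have hK₀3 : 3 ≤ K₀ := hK₂3.trans hK₀₂
  have hK₀ : ∀ K : ℝ, (K₀ : ℝ) ≤ K → 1 + 6 * D / δ + η * l₀ ≤ Real.log (Real.log K) ∧ 1 + 6 * D / δ + η * l₀ ≤ Real.log K :=
    fun K hK => hK₂ K (le_trans (by exact_mod_cast hK₀₂) hK)
  refine ⟨4 * A₁ * (1 + D), K₀, by positivity, hK₀3, ?_⟩
  intro d K q x hF hVin Y hY hKY m L hL
  have hV : ∀ K' ≤ K, K₀ ≤ K' → c * K' ≤ Vm d s q x K' := fun K' h1 h2 => hVin K' h1 (hK₀₁.trans h2)
  have hP0 : 0 ≤ 6 * D / δ := by positivity
  have hP1 : 0 ≤ η * l₀ := by positivity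
  rcases Nat.lt_or_ge K K₀ with hKK | hKK
  · rw [zprop_empty]
    · exact hε.le
    · rintro ν ⟨K', h1, h2, _⟩
      omega
  have hKr : (K₀ : ℝ) ≤ K := by exact_mod_cast hKK
  have hK1 : (1 : ℝ) ≤ K := by
    have : (3 : ℝ) ≤ K₀ := by exact_mod_cast hK₀3
    linarith
  have hY1 : (1 : ℝ) ≤ Y := hK1.trans (by exact_mod_cast hKY)
  obtain ⟨kll, kl⟩ := hK₀ K hKr
  have hllK : 1 ≤ Real.log (Real.log K) := by linarith
  -- the comparison of the logarithms
  have hlog : ∀ K' : ℕ, K₀ ≤ K' → ∀ l : ℕ, 1 ≤ l → (l : ℝ) ≤ lev η K' → Real.log l ≤ Real.log (Real.log K') + D := by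
    intro K' hK' l hl1 hl
    have hK'r : (K₀ : ℝ) ≤ K' := by exact_mod_cast hK'
    obtain ⟨k1, k2⟩ := hK₀ K' hK'r
    have hlK' : 1 ≤ Real.log K' := by linarith
    have h1 := (lev_lt η hη0 K' (by omega)).2
    have h2 : (lev η K' : ℝ) ≤ Real.log K' * (1 / η + 1) := by
      have h3 : (lev η K' : ℝ) - 1 ≤ Real.log K' / η := by
        rw [le_div_iff₀ hη0]
        linarith
      have h4 : Real.log K' * (1 / η + 1) = Real.log K' / η + Real.log K' := by ring
      linarith
    have h3 : Real.log l ≤ Real.log (Real.log K' * (1 / η + 1)) :=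
      Real.log_le_log (by exact_mod_cast hl1) (hl.trans h2)
    rw [Real.log_mul (by linarith) (by positivity), ← hD] at h3
    exact h3
  -- the events
  obtain ⟨T, hT⟩ : ∃ T : Finset ℕ, T = Icc (lev η K₀) (lev η K) := ⟨_, rfl⟩
  have hlevge : l₀ ≤ lev η K₀ := by
    have h1 := (lev_lt η hη0 K₀ (by omega)).1
    have h2 := (hK₀ K₀ le_rfl).2
    have h3 : η * l₀ < η * lev η K₀ := by linarith
    have h4 : (l₀ : ℝ) < lev η K₀ := lt_of_mul_lt_mul_left h3 hη0.le
    have h5 : l₀ < lev η K₀ := by exact_mod_cast h4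
    exact h5.le
  have hlevmono : ∀ K₁ K₂ : ℕ, 1 ≤ K₁ → K₁ ≤ K₂ → lev η K₁ ≤ lev η K₂ := by
    intro K₁ K₂ h0 h12
    unfold lev
    apply Nat.succ_le_succ
    apply Nat.floor_le_floor
    apply div_le_div_of_nonneg_right _ hη0.le
    apply Real.log_le_log
    · exact_mod_cast h0
    · exact_mod_cast h12
  refine (zprop_union m L T _ (fun l ν => ∃ K' ≤ Nl η K l, ∃ I : Fin s → Set ℝ, (∀ i, (I i).OrdConnected) ∧
    yl δ l * √(Vm d s q x (Nl η K l)) ≤ |count x I K' ν - cmean q x I K'|) ?_).trans ?_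
  · -- the cover
    rintro ν ⟨K', hK'K, hK'0, I, hI, hdev⟩
    refine ⟨lev η K', ?_, K', ?_, I, hI, ?_⟩
    · rw [hT, mem_Icc]
      exact ⟨hlevmono K₀ K' (by omega) hK'0, hlevmono K' K (by omega) hK'K⟩
    · unfold Nl
      rw [le_min_iff]
      refine ⟨?_, hK'K⟩
      apply Nat.le_floor
      have h1 := (lev_lt η hη0 K' (by omega)).1
      have h2 : (0 : ℝ) < K' := by exact_mod_cast (show 0 < K' by omega)
      calc (K' : ℝ) = Real.exp (Real.log K') := (Real.exp_log h2).symm
        _ ≤ _ := Real.exp_le_exp.2 h1.le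
    · refine le_trans ?_ hdev
      have hK'r : (K₀ : ℝ) ≤ K' := by exact_mod_cast hK'0
      obtain ⟨k1, k2⟩ := hK₀ K' hK'r
      have hK'pos : (0 : ℝ) < K' := by exact_mod_cast (show 0 < K' by omega)
      have hNK : Nl η K (lev η K') ≤ K := min_le_right _ _
      have hKN : K' ≤ Nl η K (lev η K') := by
        unfold Nl
        rw [le_min_iff]
        refine ⟨?_, hK'K⟩
        apply Nat.le_floor
        have h1 := (lev_lt η hη0 K' (by omega)).1
        calc (K' : ℝ) = Real.exp (Real.log K') := (Real.exp_log hK'pos).symm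
          _ ≤ _ := Real.exp_le_exp.2 h1.le
      have hNle : (Nl η K (lev η K') : ℝ) ≤ (1 + θ) * K' := by
        have h1 : (Nl η K (lev η K') : ℝ) ≤ Real.exp (η * lev η K') := by
          have h2 : (Nl η K (lev η K') : ℝ) ≤ ⌊Real.exp (η * lev η K')⌋₊ := by exact_mod_cast min_le_left _ _
          exact h2.trans (Nat.floor_le (Real.exp_pos _).le)
        refine h1.trans ?_
        have h2 := (lev_lt η hη0 K' (by omega)).2
        calc Real.exp (η * lev η K') = Real.exp η * Real.exp (η * (lev η K' - 1)) := by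
              rw [← Real.exp_add]
              congr 1
              ring
          _ ≤ Real.exp η * Real.exp (Real.log K') := mul_le_mul_of_nonneg_left (Real.exp_le_exp.2 h2) (Real.exp_pos _).le
          _ = _ := by rw [hexp, Real.exp_log hK'pos]
      have hV0 := Vm_nonneg (s := s) hF hK'K
      have hVc := hV K' hK'K hK'0
      have hgr := Vm_growth (s := s) hF hKN hNK (δ / 12) (by positivity)
      have hlev2 : 1 ≤ lev η K' := by unfold lev; omega
      refine up_final δ (Vm d s q x K') (Vm d s q x (Nl η K (lev η K'))) (Real.log (lev η K')) (Real.log (Real.log K')) (lev η K') hδ hδ1 hV0 ?_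
        (Vm_nonneg hF hNK) hlev2 rfl ?_ (by linarith)
      · refine hgr.trans ?_
        have h1 : 8 * (s : ℝ) * ((Nl η K (lev η K') : ℝ) - K') ≤ 8 * s * (θ * K') := by
          apply mul_le_mul_of_nonneg_left _ (by positivity)
          linarith
        have h2 : (1 + 1 / (δ / 12)) * (8 * s * (θ * K')) ≤ δ / 12 * (c * K') := by
          have h3 : (1 + 1 / (δ / 12)) ≤ 13 / δ := by
            have : 1 / (δ / 12) = 12 / δ := by field_simp
            rw [this]
            have : 1 ≤ 1 / δ := by rw [le_div_iff₀ hδ]; linarith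
            have : 13 / δ = 12 / δ + 1 / δ := by ring
            linarith
          have h4 : (8 : ℝ) * s * θ ≤ c * δ ^ 2 / 250 := by
            have h5 : (8 : ℝ) * s * θ = c * δ ^ 2 / 250 * (s / (s + 1)) := by
              rw [hθ]
              field_simp
              ring
            rw [h5]
            have h6 : (s : ℝ) / (s + 1) ≤ 1 := by
              rw [div_le_one (by linarith)]
              linarith
            have h7 : 0 ≤ c * δ ^ 2 / 250 := by positivity
            nlinarith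
          calc (1 + 1 / (δ / 12)) * (8 * s * (θ * K')) = (1 + 1 / (δ / 12)) * ((8 * s * θ) * K') := by ring
            _ ≤ 13 / δ * ((c * δ ^ 2 / 250) * K') := by
                apply mul_le_mul h3 (mul_le_mul_of_nonneg_right h4 hK'pos.le) (by positivity) (by positivity)
            _ = 13 / 250 * δ * (c * K') := by
                field_simp
            _ ≤ δ / 12 * (c * K') := by
                apply mul_le_mul_of_nonneg_right _ (by positivity)
                linarith
        have h3 : (1 + 1 / (δ / 12)) * (8 * s * ((Nl η K (lev η K') : ℝ) - K')) ≤ δ / 12 * Vm d s q x K' := by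
          have h4 : 0 ≤ 1 + 1 / (δ / 12) := by positivity
          have h5 := mul_le_mul_of_nonneg_left h1 h4
          have h6 : δ / 12 * (c * K') ≤ δ / 12 * Vm d s q x K' := mul_le_mul_of_nonneg_left hVc (by positivity)
          linarith
        linarith
      · have h1 := hlog K' hK'0 (lev η K') hlev2 le_rfl
        have h2 : D ≤ δ / 6 * Real.log (Real.log K') := by
          have h3 : 6 * D / δ ≤ Real.log (Real.log K') := by linarith
          rw [div_le_iff₀ hδ] at h3
          linarith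
        linarith
  · -- the probabilities
    refine le_trans (sum_le_sum fun l hl => ?_) (hl₁ T fun l hl => ?_)
    · rw [hT, mem_Icc] at hl
      have hl2 : l₂ ≤ l := by omega
      have hl1 : 1 ≤ l := by omega
      obtain ⟨e1, e2⟩ := hl₂ l hl2
      have hlr : (1 : ℝ) ≤ l := by exact_mod_cast hl1
      have hlogl : 0 ≤ Real.log l := Real.log_nonneg hlr
      have hNK : Nl η K l ≤ K := min_le_right _ _
      have hN0 : K₀ ≤ Nl η K l := by
        unfold Nl
        rw [le_min_iff]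
        refine ⟨?_, hKK⟩
        apply Nat.le_floor
        have h1 := (lev_lt η hη0 K₀ (by omega)).1
        have h2 : (0 : ℝ) < K₀ := by exact_mod_cast (show 0 < K₀ by omega)
        have h3 : (lev η K₀ : ℝ) ≤ l := by exact_mod_cast hl.1
        calc (K₀ : ℝ) = Real.exp (Real.log K₀) := (Real.exp_log h2).symm
          _ ≤ _ := Real.exp_le_exp.2 (h1.le.trans (mul_le_mul_of_nonneg_left h3 hη0.le))
      have hNbig : Real.exp (η * (l - 1)) / 2 ≤ Nl η K l := by
        have h1 : Real.exp (η * ((l : ℝ) - 1)) ≤ K := by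
          have h2 := (lev_lt η hη0 K (by omega)).2
          have h3 : (l : ℝ) ≤ lev η K := by exact_mod_cast hl.2
          calc Real.exp (η * ((l : ℝ) - 1)) ≤ Real.exp (Real.log K) := by
                apply Real.exp_le_exp.2
                refine le_trans ?_ h2
                apply mul_le_mul_of_nonneg_left _ hη0.le
                linarith
            _ = K := Real.exp_log (by linarith)
        have h2 : Real.exp (η * ((l : ℝ) - 1)) / 2 ≤ ⌊Real.exp (η * l)⌋₊ := by
          have h3 := Nat.lt_floor_add_one (Real.exp (η * l))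
          have h4 : Real.exp (η * ((l : ℝ) - 1)) ≤ Real.exp (η * l) := Real.exp_le_exp.2 (by nlinarith)
          have h5 : (1 : ℝ) ≤ ⌊Real.exp (η * l)⌋₊ := by
            have h6 : 1 ≤ Nl η K l := by omega
            have h7 : Nl η K l ≤ ⌊Real.exp (η * l)⌋₊ := min_le_left _ _
            exact_mod_cast h6.trans h7
          linarith
        have h3 : Real.exp (η * ((l : ℝ) - 1)) / 2 ≤ (K : ℝ) := by
          have := Real.exp_pos (η * ((l : ℝ) - 1))
          linarith
        unfold Nl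
        rw [Nat.cast_min]
        exact le_min h2 h3
      have hF' : Fam d (Nl η K l + s) q x := fam_mono hF (by omega)
      have h1 := H d (Nl η K l) q x hF' (Vm d s q x (Nl η K l)) (hV _ hNK hN0) (by
        intro K' hK' I hI
        have h2 := Vm_ge hF hNK hK' I hI
        rw [vb_eq hF' hK' I] at h2
        unfold vr at h2
        simp only [dev_eq]
        exact h2) (yl δ l) e1 (e2.trans (by
          apply mul_le_mul_of_nonneg_left _ hδ₀.le
          exact Real.sqrt_le_sqrt hNbig)) Y (fun i hi => hY i (by omega)) (hNK.trans hKY) m L (by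
        intro i
        refine le_trans ?_ (hL i)
        apply mul_le_mul_of_nonneg_left _ (by positivity)
        apply Real.rpow_le_rpow_of_exponent_le hY1
        rw [yl_sq δ l hl1]
        have h2 : Real.log l ≤ (1 + D) * Real.log (Real.log K) := by
          have h3 := hlog K hKK l hl1 (by exact_mod_cast hl.2)
          have h4 : D ≤ D * Real.log (Real.log K) := le_mul_of_one_le_right hD0 hllK
          linarith
        have h3 : (1 + δ / 3) ^ 2 ≤ 2 := by nlinarith
        calc A₁ * ((1 + δ / 3) ^ 2 * (2 * Real.log l)) ≤ A₁ * (2 * (2 * ((1 + D) * Real.log (Real.log K)))) := by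
              apply mul_le_mul_of_nonneg_left _ hA₁.le
              apply mul_le_mul h3 (by linarith) (by positivity) (by norm_num)
          _ = _ := by ring)
      refine h1.trans ?_
      have h2 : (l : ℝ) ^ (-(1 + δ / 3)) = Real.exp (-((1 + δ / 3) * Real.log l)) := by
        rw [Real.rpow_def_of_pos (by linarith)]
        congr 1
        ring
      rw [h2]
      apply Real.exp_le_exp.2
      rw [yl_sq δ l hl1]
      have h3 : (1 + δ / 3) ≤ (1 - δ / 12) * (1 + δ / 3) ^ 2 := by nlinarith [sq_nonneg δ, mul_pos hδ hδ]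
      have h4 := mul_le_mul_of_nonneg_right h3 hlogl
      have h5 : (1 - δ / 12) * ((1 + δ / 3) ^ 2 * (2 * Real.log l) / 2) = (1 - δ / 12) * (1 + δ / 3) ^ 2 * Real.log l := by ring
      rw [h5]
      linarith
    · rw [hT, mem_Icc] at hl
      omega

end Pool.Agent.H46.SW
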