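import Pool.Graph.R_pool_sql_team_seeded_3997aac3.Q69.DL.Main2
import Pool.Graph.R_pool_sql_team_seeded_3997aac3.Q255.EB.Ell

/-!
# The largest variance of the counts of windows
-/

set_option autoImplicit false

namespace Pool.Agent.H46.SW

open Finset Pool.Agent.Q255.EB
open Q282LT (zbox zprop avg ZPer)
open Q285MD (wm tm vr Dat G avg_mono avg_add avg_smul avg_const avg_sum avg_dvd avg_abs)
open Pool.Agent.Q277.EB (gi gi_nonneg gi_le dat dev_eq)

/-- the variance of the count of the windows in a box -/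
noncomputable def vb {d s : ℕ} (q : ℕ → ℕ) (x : ℕ → (Fin d → ℤ) → ℝ) (I : Fin s → Set ℝ) (K : ℕ) : ℝ :=
  avg d (tm q (K + s)) (fun ν => (count x I K ν - cmean q x I K) ^ 2)

/-- the variances of the counts of at most `K` windows -/
def Vset (d s : ℕ) (q : ℕ → ℕ) (x : ℕ → (Fin d → ℤ) → ℝ) (K : ℕ) : Set ℝ :=
  {v | ∃ K' : ℕ, K' ≤ K ∧ ∃ I : Fin s → Set ℝ, (∀ i, (I i).OrdConnected) ∧ v = vb q x I K'}

/-- the largest variance -/
noncomputable def Vm (d s : ℕ) (q : ℕ → ℕ) (x : ℕ → (Fin d → ℤ) → ℝ) (K : ℕ) : ℝ := sSup (Vset d s q x K)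

variable {d s : ℕ} {q : ℕ → ℕ} {x : ℕ → (Fin d → ℤ) → ℝ}

lemma fam_mono {n n' : ℕ} (h : Fam d n q x) (hn : n' ≤ n) : Fam d n' q x :=
  ⟨fun k hk => h.q1 k (by omega), fun i hi j hj hij => h.cop i (by omega) j (by omega) hij,
    fun k hk => h.per k (by omega)⟩

lemma dat_mono {K K' : ℕ} {g : ℕ → (Fin d → ℤ) → ℝ} (h : Dat d s K q g) (hn : K' ≤ K) : Dat d s K' q g :=
  ⟨fun k hk => h.q1 k (by omega), fun i hi j hj hij => h.cop i (by omega) j (by omega) hij,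
    fun k hk => h.per k (by omega), fun k hk => h.bd k (by omega)⟩

/-- the variance does not depend on the number of the moduli -/
lemma vr_longer {K K' : ℕ} {g : ℕ → (Fin d → ℤ) → ℝ} (h : Dat d s K q g) (hK : K' ≤ K) (X : Finset ℕ) (hX : X ⊆ range K') :
    vr d s K q g X = vr d s K' q g X := by
  unfold vr
  apply avg_dvd h.tm_pos
  · unfold tm
    refine prod_dvd_prod_of_subset _ _ _ fun i hi => ?_
    rw [mem_range] at hi ⊢
    omega
  · have h1 : ZPer (tm q (K' + s)) (fun ν => ∑ k ∈ X, G s q g k ν) :=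
      Q285MD.ZPer.sum fun k hk => Q285MD.ZPer.of_dvd ((dat_mono h hK).wm_dvd (mem_range.1 (hX hk)))
        ((dat_mono h hK).G_per (mem_range.1 (hX hk)))
    intro ν ν' hν
    have h2 : ∑ k ∈ X, G s q g k ν = ∑ k ∈ X, G s q g k ν' := h1 ν ν' hν
    show (∑ k ∈ X, G s q g k ν) ^ 2 = (∑ k ∈ X, G s q g k ν') ^ 2
    rw [h2]

lemma vb_eq {K K' : ℕ} (h : Fam d (K + s) q x) (hK : K' ≤ K) (I : Fin s → Set ℝ) : vb q x I K' = vr d s K q (gi x I) (range K') := by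
  rw [vr_longer (dat h I) hK (range K') (subset_refl _)]
  unfold vb vr
  congr 1
  funext ν
  rw [dev_eq]

lemma vb_nonneg {K K' : ℕ} (h : Fam d (K + s) q x) (hK : K' ≤ K) (I : Fin s → Set ℝ) : 0 ≤ vb q x I K' := by
  rw [vb_eq h hK]
  exact Q285MD.vr_nonneg (dat h I) _

lemma vb_le {K K' : ℕ} (h : Fam d (K + s) q x) (hK : K' ≤ K) (I : Fin s → Set ℝ) : vb q x I K' ≤ 8 * s * K' := by
  rw [vb_eq h hK]
  refine ((dat h I).vr_le (range K') (range_subset_range.2 hK)).trans (le_of_eq ?_)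
  rw [card_range]

lemma Vset_nonempty (K : ℕ) : (Vset d s q x K).Nonempty :=
  ⟨_, 0, Nat.zero_le _, fun _ => Set.univ, fun _ => Set.ordConnected_univ, rfl⟩

lemma Vset_bdd {K K' : ℕ} (h : Fam d (K + s) q x) (hK : K' ≤ K) : BddAbove (Vset d s q x K') := by
  refine ⟨8 * s * K', ?_⟩
  rintro v ⟨K'', h1, I, hI, rfl⟩
  refine (vb_le h (h1.trans hK) I).trans ?_
  have : (K'' : ℝ) ≤ K' := by exact_mod_cast h1
  have hs : (0 : ℝ) ≤ s := Nat.cast_nonneg _
  nlinarith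

lemma Vm_ge {K K' K'' : ℕ} (h : Fam d (K + s) q x) (hK : K' ≤ K) (hK' : K'' ≤ K') (I : Fin s → Set ℝ) (hI : ∀ i, (I i).OrdConnected) :
    vb q x I K'' ≤ Vm d s q x K' := le_csSup (Vset_bdd h hK) ⟨K'', hK', I, hI, rfl⟩

lemma Vm_nonneg {K K' : ℕ} (h : Fam d (K + s) q x) (hK : K' ≤ K) : 0 ≤ Vm d s q x K' :=
  (vb_nonneg h hK (fun _ => Set.univ)).trans (Vm_ge h hK le_rfl _ fun _ => Set.ordConnected_univ)

lemma Vm_le {K K' : ℕ} (h : Fam d (K + s) q x) (hK : K' ≤ K) : Vm d s q x K' ≤ 8 * s * K' := by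
  apply csSup_le (Vset_nonempty K')
  rintro v ⟨K'', h1, I, hI, rfl⟩
  refine (vb_le h (h1.trans hK) I).trans ?_
  have : (K'' : ℝ) ≤ K' := by exact_mod_cast h1
  have hs : (0 : ℝ) ≤ s := Nat.cast_nonneg _
  nlinarith

lemma Vm_mono {K K₁ K₂ : ℕ} (h : Fam d (K + s) q x) (h12 : K₁ ≤ K₂) (hK : K₂ ≤ K) : Vm d s q x K₁ ≤ Vm d s q x K₂ := by
  apply csSup_le (Vset_nonempty K₁)
  rintro v ⟨K'', h1, I, hI, rfl⟩
  exact Vm_ge h hK (h1.trans h12) I hI

/-- the growth of the largest variance -/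
lemma Vm_growth {K K₁ K₂ : ℕ} (h : Fam d (K + s) q x) (h12 : K₁ ≤ K₂) (hK : K₂ ≤ K) (u : ℝ) (hu : 0 < u) :
    Vm d s q x K₂ ≤ (1 + u) * Vm d s q x K₁ + (1 + 1 / u) * (8 * s * ((K₂ : ℝ) - K₁)) := by
  have hV := Vm_nonneg h (h12.trans hK)
  have hK12 : (K₁ : ℝ) ≤ K₂ := by exact_mod_cast h12
  have hs : (0 : ℝ) ≤ s := Nat.cast_nonneg _
  have hu1 : 0 < 1 + 1 / u := by positivity
  apply csSup_le (Vset_nonempty K₂)
  rintro v ⟨K'', h1, I, hI, rfl⟩
  rcases le_total K'' K₁ with h2 | h2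
  · have h3 := Vm_ge h (h12.trans hK) h2 I hI
    have h4 : 0 ≤ (1 + 1 / u) * (8 * s * ((K₂ : ℝ) - K₁)) := by
      apply mul_nonneg hu1.le
      apply mul_nonneg (by positivity)
      linarith
    nlinarith
  · rw [vb_eq h (h1.trans hK)]
    have hsplit : range K'' = range K₁ ∪ Ico K₁ K'' := by
      ext k
      rw [mem_union, mem_range, mem_range, mem_Ico]
      omega
    have hdis : Disjoint (range K₁) (Ico K₁ K'') := by
      rw [disjoint_left]
      intro k h3 h4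
      rw [mem_range] at h3
      rw [mem_Ico] at h4
      omega
    have h3 := (Q285MD.vr_add (d := d) (s := s) (K := K) (q := q) (g := gi x I) (range K₁) (Ico K₁ K'') hdis u hu).1
    rw [← hsplit, ← vb_eq h (h12.trans hK)] at h3
    have h4 := Vm_ge h (h12.trans hK) le_rfl I hI
    have h5 := (dat h I).vr_le (Ico K₁ K'') (fun k hk => by
      rw [mem_Ico] at hk
      rw [mem_range]
      omega)
    rw [Nat.card_Ico, Nat.cast_sub h2] at h5
    have h6 : (K'' : ℝ) ≤ K₂ := by exact_mod_cast h1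
    have h7 : vr d s K q (gi x I) (Ico K₁ K'') ≤ 8 * s * ((K₂ : ℝ) - K₁) := h5.trans (by
      apply mul_le_mul_of_nonneg_left _ (by positivity)
      linarith)
    have h8 := mul_le_mul_of_nonneg_left h7 hu1.le
    have h9 : (1 + u) * vb q x I K₁ ≤ (1 + u) * Vm d s q x K₁ := mul_le_mul_of_nonneg_left h4 (by linarith)
    linarith

/-- a box with almost the largest variance -/
lemma Vm_attain (K : ℕ) (w : ℝ) (hw : w < Vm d s q x K) : ∃ K' ≤ K, ∃ I : Fin s → Set ℝ, (∀ i, (I i).OrdConnected) ∧ w < vb q x I K' := by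
  obtain ⟨v, ⟨K', h1, I, hI, rfl⟩, h2⟩ := exists_lt_of_lt_csSup (Vset_nonempty K) hw
  exact ⟨K', h1, I, hI, h2⟩

end Pool.Agent.H46.SW
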